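import Pool.Agent.NH11.PV.Count

set_option autoImplicit false

/-! # Pairs of equal ordinates and the zeros that are multiple or off the line -/

namespace Pool.Agent.NH11.PV

open Filter Topology Set MeasureTheory
open H370 (mult zset zeta_zeros_finite NN good_zeta)
open scoped ComplexConjugate

/-- the number of zeros with ordinate in `(0, T]`, counted with multiplicity, that are off the
critical line or multiple -/
noncomputable def Nbad (T : ℝ) : ℕ :=
  ∑ᶠ s ∈ {s : ℂ | s ∈ ZZ ∧ 0 < s.im ∧ s.im ≤ T ∧ (s.re ≠ 1 / 2 ∨ deriv riemannZeta s = 0)}, zmult s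

/-- a zero is bad when it is off the line or multiple -/
def bad (s : ℂ) : Prop := s.re ≠ 1 / 2 ∨ deriv riemannZeta s = 0

open scoped Classical in
lemma Nbad_eq (T : ℝ) : (Nbad T : ℝ) = ∑ s ∈ (Zt T).filter bad, mz s := by
  have e : {s : ℂ | s ∈ ZZ ∧ 0 < s.im ∧ s.im ≤ T ∧ (s.re ≠ 1 / 2 ∨ deriv riemannZeta s = 0)} =
      ↑((Zt T).filter bad) := by
    ext s
    rw [Finset.mem_coe, Finset.mem_filter, mem_Zt', Set.mem_ofPred_eq]
    unfold bad
    tauto
  unfold Nbad
  rw [e, finsum_mem_coe_finset]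
  push_cast
  rfl

lemma zeta_an {s : ℂ} (hs : s ≠ 1) : AnalyticAt ℂ riemannZeta s := by
  have hd : DifferentiableOn ℂ riemannZeta {1}ᶜ := fun z hz =>
    (differentiableAt_riemannZeta hz).differentiableWithinAt
  exact hd.analyticAt (isOpen_compl_singleton.mem_nhds hs)

lemma zmult_pos {s : ℂ} (hs : 0 < s.im) (h0 : riemannZeta s = 0) : 1 ≤ zmult s :=
  H370.Loc.mult_pos' good_zeta hs h0

theorem zmult_two {s : ℂ} (hs : 0 < s.im) (h0 : riemannZeta s = 0)
    (h1 : deriv riemannZeta s = 0) : 2 ≤ zmult s := by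
  have hs1 : s ≠ 1 := by intro h; rw [h] at hs; simp at hs
  have ha := zeta_an hs1
  have hp := zmult_pos hs h0
  have htop : analyticOrderAt riemannZeta s ≠ ⊤ := by
    intro h
    unfold zmult analyticOrderNatAt at hp
    rw [h] at hp
    simp at hp
  have h2 := ha.analyticOrderAt_deriv_add_one
  have h3 : (fun z => riemannZeta z - riemannZeta s) = riemannZeta := by
    funext z; rw [h0, sub_zero]
  rw [h3] at h2
  have h4 : analyticOrderAt (deriv riemannZeta) s ≠ 0 :=
    ha.deriv.analyticOrderAt_ne_zero.mpr h1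
  have h5 : (zmult s : ℕ∞) = analyticOrderAt riemannZeta s := Nat.cast_analyticOrderNatAt htop
  have h6 : (1 : ℕ∞) ≤ analyticOrderAt (deriv riemannZeta) s := Order.one_le_iff_ne_zero.mpr h4
  have h7 : (2 : ℕ∞) ≤ (zmult s : ℕ∞) := by
    rw [h5, ← h2, ← one_add_one_eq_two]
    gcongr
  exact_mod_cast h7

theorem zmult_one {s : ℂ} (hs : 0 < s.im) (h0 : riemannZeta s = 0)
    (h1 : deriv riemannZeta s ≠ 0) : zmult s = 1 := by
  have hs1 : s ≠ 1 := by intro h; rw [h] at hs; simp at hs
  have h2 := (zeta_an hs1).analyticOrderAt_eq_one_of_zero_deriv_ne_zero h0 h1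
  unfold zmult analyticOrderNatAt
  rw [h2]
  rfl

/-- the reflected zero -/
lemma refl_zero {s : ℂ} (hs : s ∈ ZZ) : 1 - conj s ∈ ZZ := by
  obtain ⟨h0, h1, h2⟩ := hs
  have h3 : riemannZeta (1 - s) = 0 := by
    rw [riemannZeta_one_sub (s := s)]
    · rw [h0, mul_zero]
    · intro n hn
      rw [hn] at h1
      simp at h1
      have : (0 : ℝ) ≤ n := Nat.cast_nonneg n
      linarith
    · rintro rfl
      simp at h2
  refine ⟨?_, ?_, ?_⟩
  · have e : 1 - conj s = conj (1 - s) := by simp
    rw [e, riemannZeta_conj, h3, map_zero]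
  · simp; linarith
  · simp; linarith

/-- the mass at the ordinate of `s` -/
noncomputable def nn (S : Finset ℂ) (s : ℂ) : ℝ := ∑ s' ∈ S, mz s' * (if s.im = s'.im then 1 else 0)

lemma nn_nonneg (S : Finset ℂ) (s : ℂ) : 0 ≤ nn S s :=
  Finset.sum_nonneg fun s' _ => mul_nonneg (mz_nonneg _) (by split_ifs <;> norm_num)

lemma Neq_nn (T : ℝ) : (Neq T : ℝ) = ∑ s ∈ Zt T, mz s * nn (Zt T) s := by
  rw [Neq_eq]
  refine Finset.sum_congr rfl fun s _ => ?_
  unfold nn
  rw [Finset.mul_sum]
  refine Finset.sum_congr rfl fun s' _ => ?_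
  ring

open scoped Classical in
/-- the good zeros have mass at most one at each ordinate -/
lemma nn_le (T : ℝ) {s : ℂ} (hs : s ∈ Zt T) :
    nn (Zt T) s ≤ 1 + nn ((Zt T).filter bad) s := by
  unfold nn
  rw [← Finset.sum_filter_add_sum_filter_not (Zt T) bad]
  have h1 : ∑ s' ∈ (Zt T).filter (fun s' => ¬ bad s'), mz s' * (if s.im = s'.im then 1 else 0) ≤ 1 := by
    have e : ∀ s' ∈ (Zt T).filter (fun s' => ¬ bad s'),
        mz s' * (if s.im = s'.im then 1 else 0) = if s' = ⟨1 / 2, s.im⟩ then (1 : ℝ) else 0 := by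
      intro s' hs'
      rw [Finset.mem_filter, mem_Zt'] at hs'
      obtain ⟨⟨h1, h2, h3⟩, h4⟩ := hs'
      unfold bad at h4
      push Not at h4
      have h5 : mz s' = 1 := by
        rw [mz_zmult, zmult_one h2 h1.1 h4.2]
        norm_num
      by_cases h6 : s.im = s'.im
      · rw [if_pos h6, if_pos, h5, mul_one]
        apply Complex.ext
        · exact h4.1
        · exact h6.symm
      · rw [if_neg h6, if_neg, mul_zero]
        intro h7
        apply h6
        rw [h7]
    rw [Finset.sum_congr rfl e, ← Finset.sum_filter]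
    simp only [Finset.sum_const, nsmul_eq_mul, mul_one]
    have : (Finset.filter (fun a => a = (⟨1 / 2, s.im⟩ : ℂ))
        (Finset.filter (fun s' => ¬bad s') (Zt T))).card ≤ 1 := by
      rw [Finset.card_le_one]
      intro a ha b hb
      rw [(Finset.mem_filter.1 ha).2, (Finset.mem_filter.1 hb).2]
    exact_mod_cast this
  linarith

open scoped Classical in
/-- symmetry of the double sum -/
lemma nn_symm (S S' : Finset ℂ) : ∑ s ∈ S, mz s * nn S' s = ∑ s ∈ S', mz s * nn S s := by
  unfold nn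
  simp_rw [Finset.mul_sum]
  rw [Finset.sum_comm]
  refine Finset.sum_congr rfl fun s _ => Finset.sum_congr rfl fun s' _ => ?_
  by_cases h : s.im = s'.im
  · rw [if_pos h, if_pos h.symm]; ring
  · rw [if_neg h, if_neg (fun h' => h h'.symm)]; ring

open scoped Classical in
/-- the bad zeros are seen by the pairs of equal ordinates -/
theorem bad_le (T : ℝ) : (Nbad T : ℝ) ≤ Neq T - NN riemannZeta 0 T := by
  rw [Nbad_eq, Neq_nn, ← sum_Zt, ← Finset.sum_sub_distrib]
  rw [Finset.sum_filter]
  refine Finset.sum_le_sum fun s hs => ?_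
  have hm := mz_nonneg s
  have hs' := hs
  rw [mem_Zt'] at hs'
  obtain ⟨h1, h2, h3⟩ := hs'
  have hself : mz s ≤ nn (Zt T) s := by
    unfold nn
    calc mz s = mz s * (if s.im = s.im then 1 else 0) := by simp
      _ ≤ _ := Finset.single_le_sum (f := fun s' => mz s' * (if s.im = s'.im then 1 else 0))
        (fun s' _ => mul_nonneg (mz_nonneg _) (by split_ifs <;> norm_num)) hs
  have hone : 1 ≤ mz s := by
    rw [mz_zmult]
    exact_mod_cast zmult_pos h2 h1.1
  split_ifs with hb
  · have h4 : 2 ≤ nn (Zt T) s := by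
      by_cases h5 : s.re = 1 / 2
      · unfold bad at hb
        have h6 : deriv riemannZeta s = 0 := by
          rcases hb with h | h
          · exact absurd h5 h
          · exact h
        have h7 : (2 : ℝ) ≤ mz s := by
          rw [mz_zmult]
          exact_mod_cast zmult_two h2 h1.1 h6
        linarith
      · set s' : ℂ := 1 - conj s with hs'
        have h6 : s'.im = s.im := by rw [hs']; simp
        have h7 : s' ∈ ZZ := refl_zero h1
        have h8 : s' ∈ Zt T := mem_Zt'.2 ⟨h7, by rw [h6]; exact h2, by rw [h6]; exact h3⟩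
        have h9 : s ≠ s' := by
          intro h
          have h10 := congrArg Complex.re h
          rw [hs'] at h10
          simp at h10
          apply h5
          linarith
        have h10 : 1 ≤ mz s' := by
          rw [mz_zmult]
          exact_mod_cast zmult_pos (by rw [h6]; exact h2) h7.1
        have h11 : mz s + mz s' ≤ nn (Zt T) s := by
          unfold nn
          have := Finset.add_le_sum (f := fun s' => mz s' * (if s.im = s'.im then 1 else 0))
            (fun s' _ => mul_nonneg (mz_nonneg _) (by split_ifs <;> norm_num)) hs h8 h9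
          simp only [h6, if_true, mul_one] at this
          exact this
        linarith
    nlinarith
  · nlinarith

open scoped Classical in
/-- the other inequality -/
theorem eq_le (T : ℝ) : ((Neq T : ℝ) - NN riemannZeta 0 T) ^ 2 ≤
    Nbad T * ∑ s ∈ Zt T, mz s * nn (Zt T) s ^ 2 := by
  have h1 : (Neq T : ℝ) - NN riemannZeta 0 T ≤ ∑ s ∈ (Zt T).filter bad, mz s * nn (Zt T) s := by
    rw [nn_symm, Neq_nn, ← sum_Zt, ← Finset.sum_sub_distrib]
    refine Finset.sum_le_sum fun s hs => ?_
    have := nn_le T hs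
    have hm := mz_nonneg s
    nlinarith
  have h0 : 0 ≤ (Neq T : ℝ) - NN riemannZeta 0 T := by
    have := bad_le T
    have h2 : (0 : ℝ) ≤ Nbad T := Nat.cast_nonneg _
    linarith
  have h2 : (∑ s ∈ (Zt T).filter bad, mz s * nn (Zt T) s) ^ 2 ≤
      (∑ s ∈ (Zt T).filter bad, mz s) * ∑ s ∈ (Zt T).filter bad, mz s * nn (Zt T) s ^ 2 := by
    apply Finset.sum_sq_le_sum_mul_sum_of_sq_eq_mul
    · intro s _; exact mz_nonneg s
    · intro s _; exact mul_nonneg (mz_nonneg s) (sq_nonneg _)
    · intro s _; ring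
  have h3 : ∑ s ∈ (Zt T).filter bad, mz s * nn (Zt T) s ^ 2 ≤
      ∑ s ∈ Zt T, mz s * nn (Zt T) s ^ 2 :=
    Finset.sum_le_sum_of_subset_of_nonneg (Finset.filter_subset _ _)
      fun s _ _ => mul_nonneg (mz_nonneg s) (sq_nonneg _)
  have h4 : 0 ≤ ∑ s ∈ (Zt T).filter bad, mz s := Finset.sum_nonneg fun s _ => mz_nonneg s
  rw [Nbad_eq]
  calc ((Neq T : ℝ) - NN riemannZeta 0 T) ^ 2 ≤
      (∑ s ∈ (Zt T).filter bad, mz s * nn (Zt T) s) ^ 2 := pow_le_pow_left₀ h0 h1 2
    _ ≤ _ := h2
    _ ≤ _ := by gcongr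

end Pool.Agent.NH11.PV
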