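import Pool.Agent.Y750.OM.Cnt
import Pool.Agent.NH11.PV.Bad

set_option autoImplicit false

/-! # The third moment of the masses at the ordinates -/

namespace Pool.Agent.NH11.PV

open Filter Topology Set MeasureTheory
open H370 (mult zset zeta_zeros_finite NN good_zeta)
open Pool.Agent.Y750.OM (cntmom)

theorem third_of_moment (S : Finset ℂ) {w B : ℝ} (hw : 0 < w) (hB : 0 ≤ B)
    (h : ∫⁻ t : ℝ, ENNReal.ofReal ((∑ s ∈ S.filter (fun s => |s.im - t| ≤ w), mz s) ^ 3) ≤
      ENNReal.ofReal B) :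
    2 * w * ∑ s ∈ S, mz s * nn S s ^ 2 ≤ B := by
  classical
  set g : ℝ → ℝ := fun t => ∑ s ∈ S, mz s * nn S s ^ 2 *
    (Set.Icc (s.im - w) (s.im + w)).indicator (fun _ => (1 : ℝ)) t with hg
  have hind : ∀ c : ℝ, Integrable ((Set.Icc (c - w) (c + w)).indicator
      (fun _ => (1 : ℝ))) := by
    intro c
    rw [integrable_indicator_iff measurableSet_Icc]
    exact integrableOn_const (by simp)
  have hind2 : ∀ c : ℝ, ∫ t, (Set.Icc (c - w) (c + w)).indicator
      (fun _ => (1 : ℝ)) t = 2 * w := by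
    intro c
    rw [integral_indicator measurableSet_Icc, setIntegral_const]
    simp only [smul_eq_mul, mul_one, Measure.real, Real.volume_Icc]
    rw [ENNReal.toReal_ofReal (by linarith)]
    ring
  have hgi : Integrable g := integrable_finset_sum _ fun i _ => (hind _).const_mul _
  have hg1 : ∫ t, g t = 2 * w * ∑ s ∈ S, mz s * nn S s ^ 2 := by
    rw [hg, integral_finset_sum _ fun i _ => (hind _).const_mul _, Finset.mul_sum]
    refine Finset.sum_congr rfl fun i _ => ?_
    rw [integral_const_mul, hind2]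
    ring
  have hg0 : ∀ t, 0 ≤ g t := by
    intro t
    refine Finset.sum_nonneg fun i hi => ?_
    exact mul_nonneg (mul_nonneg (mz_nonneg _) (sq_nonneg _))
      (Set.indicator_nonneg (fun _ _ => zero_le_one) _)
  have hle : ∀ t, g t ≤ (∑ s ∈ S.filter (fun s => |s.im - t| ≤ w), mz s) ^ 3 := by
    intro t
    set W := ∑ s ∈ S.filter (fun s => |s.im - t| ≤ w), mz s with hW
    have hW0 : 0 ≤ W := Finset.sum_nonneg fun s _ => mz_nonneg s
    have h1 : g t = ∑ s ∈ S.filter (fun s => |s.im - t| ≤ w), mz s * nn S s ^ 2 := by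
      rw [hg, Finset.sum_filter]
      refine Finset.sum_congr rfl fun s _ => ?_
      by_cases h2 : |s.im - t| ≤ w
      · obtain ⟨a1, a2⟩ := abs_le.1 h2
        rw [if_pos h2, Set.indicator_of_mem (Set.mem_Icc.2 ⟨by linarith, by linarith⟩), mul_one]
      · rw [if_neg h2, Set.indicator_of_notMem, mul_zero]
        intro h3
        obtain ⟨a1, a2⟩ := Set.mem_Icc.1 h3
        exact h2 (abs_le.2 ⟨by linarith, by linarith⟩)
    have h2 : ∀ s ∈ S.filter (fun s => |s.im - t| ≤ w), nn S s ≤ W := by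
      intro s hs
      have h3 := (Finset.mem_filter.1 hs).2
      unfold nn
      rw [hW, Finset.sum_filter]
      refine Finset.sum_le_sum fun s' _ => ?_
      by_cases h4 : s.im = s'.im
      · rw [if_pos h4, mul_one, if_pos (by rw [← h4]; exact h3)]
      · rw [if_neg h4, mul_zero]
        split_ifs
        · exact mz_nonneg _
        · exact le_rfl
    rw [h1]
    calc ∑ s ∈ S.filter (fun s => |s.im - t| ≤ w), mz s * nn S s ^ 2 ≤
        ∑ s ∈ S.filter (fun s => |s.im - t| ≤ w), mz s * W ^ 2 := by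
          refine Finset.sum_le_sum fun s hs => ?_
          exact mul_le_mul_of_nonneg_left (pow_le_pow_left₀ (nn_nonneg _ _) (h2 s hs) 2)
            (mz_nonneg s)
      _ = W ^ 3 := by rw [← Finset.sum_mul, ← hW]; ring
  have h5 : ENNReal.ofReal (∫ t, g t) ≤ ENNReal.ofReal B := by
    rw [ofReal_integral_eq_lintegral_ofReal hgi (Filter.Eventually.of_forall hg0)]
    exact (lintegral_mono fun t => ENNReal.ofReal_le_ofReal (hle t)).trans h
  rw [hg1] at h5
  exact (ENNReal.ofReal_le_ofReal_iff hB).1 h5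

/-- the cubic sum -/
noncomputable def QQ (S : Finset ℂ) : ℝ := ∑ s ∈ S, mz s * nn S s ^ 2

lemma QQ_step {U : ℝ} (hU : 1 ≤ U) : QQ (Zt (2 * U)) = QQ (Zt U) + QQ (Zb U (2 * U)) := by
  classical
  have hsp := Zt_split (V := U) (T := 2 * U) hU (by linarith)
  have hd := Zt_disj (V := U) (T := 2 * U) hU
  unfold QQ
  rw [hsp, Finset.sum_union hd]
  have e1 : ∀ s ∈ Zt U, nn (Zt U ∪ Zb U (2 * U)) s = nn (Zt U) s := by
    intro s hs
    unfold nn
    rw [Finset.sum_union hd]
    have : ∑ s' ∈ Zb U (2 * U), mz s' * (if s.im = s'.im then 1 else 0) = 0 := by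
      apply Finset.sum_eq_zero
      intro s' hs'
      rw [mem_Zt] at hs
      rw [mem_Zb hU] at hs'
      rw [if_neg, mul_zero]
      intro h
      have h1 := hs.2.2.2.1
      have h2 := hs'.2.2.1
      linarith
    rw [this, add_zero]
  have e2 : ∀ s ∈ Zb U (2 * U), nn (Zt U ∪ Zb U (2 * U)) s = nn (Zb U (2 * U)) s := by
    intro s hs
    unfold nn
    rw [Finset.sum_union hd]
    have : ∑ s' ∈ Zt U, mz s' * (if s.im = s'.im then 1 else 0) = 0 := by
      apply Finset.sum_eq_zero
      intro s' hs'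
      rw [mem_Zt] at hs'
      rw [mem_Zb hU] at hs
      rw [if_neg, mul_zero]
      intro h
      have h1 := hs'.2.2.2.1
      have h2 := hs.2.2.1
      linarith
    rw [this, zero_add]
  rw [Finset.sum_congr rfl fun s hs => by rw [e1 s hs]]
  congr 1
  exact Finset.sum_congr rfl fun s hs => by rw [e2 s hs]

lemma QQ_nonneg (S : Finset ℂ) : 0 ≤ QQ S :=
  Finset.sum_nonneg fun s _ => mul_nonneg (mz_nonneg s) (sq_nonneg _)

lemma QQ_blk : ∃ C T0 : ℝ, 0 < C ∧ 10 ≤ T0 ∧ ∀ T : ℝ, T0 ≤ T →
    QQ (Zb T (2 * T)) ≤ C * (T * Real.log T) := by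
  obtain ⟨C, T0, hC, hT0, h⟩ := cntmom 3 (by norm_num)
  refine ⟨C, T0, hC, hT0, fun T hT => ?_⟩
  have hL0 : 0 < Real.log T := Real.log_pos (by linarith)
  have hT' : 0 < T := by linarith
  have h1 := third_of_moment (Zb T (2 * T)) (w := 1 / Real.log T) (B := C * T) (by positivity)
    (by positivity) (h T hT)
  unfold QQ
  rw [mul_one_div, div_mul_eq_mul_div, div_le_iff₀ hL0] at h1
  have h2 := QQ_nonneg (Zb T (2 * T))
  unfold QQ at h2
  linarith

theorem QQ_bound : ∃ C T0 : ℝ, 0 < C ∧ 10 ≤ T0 ∧ ∀ T : ℝ, T0 ≤ T →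
    QQ (Zt T) ≤ C * (T * Real.log T) := by
  obtain ⟨C, T0, hC, hT0, h⟩ := QQ_blk
  have hB0 := QQ_nonneg (Zt (2 * T0))
  set B0 := QQ (Zt (2 * T0)) with hB
  have hmono : ∀ T : ℝ, T ≤ 2 * T0 → QQ (Zt T) ≤ B0 := by
    intro T hT
    have hsub : Zt T ⊆ Zt (2 * T0) := by
      intro s hs
      rw [mem_Zt] at hs ⊢
      exact ⟨hs.1, hs.2.1, hs.2.2.1, hs.2.2.2.1.trans hT, hs.2.2.2.2⟩
    rw [hB]
    unfold QQ
    calc ∑ s ∈ Zt T, mz s * nn (Zt T) s ^ 2 ≤ ∑ s ∈ Zt T, mz s * nn (Zt (2 * T0)) s ^ 2 := by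
          refine Finset.sum_le_sum fun s _ => mul_le_mul_of_nonneg_left ?_ (mz_nonneg s)
          apply pow_le_pow_left₀ (nn_nonneg _ _)
          unfold nn
          exact Finset.sum_le_sum_of_subset_of_nonneg hsub fun s' _ _ =>
            mul_nonneg (mz_nonneg _) (by split_ifs <;> norm_num)
      _ ≤ _ := Finset.sum_le_sum_of_subset_of_nonneg hsub fun s' _ _ =>
            mul_nonneg (mz_nonneg _) (sq_nonneg _)
  have hmain : ∀ n : ℕ, ∀ T : ℝ, T0 ≤ T → T ≤ 2 ^ n * (2 * T0) →
      QQ (Zt T) ≤ B0 + C * (T * Real.log T) := by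
    intro n
    have hbase : ∀ T : ℝ, T0 ≤ T → T ≤ 2 * T0 → QQ (Zt T) ≤ B0 + C * (T * Real.log T) := by
      intro T hT hT2
      have h1 := hmono T hT2
      have h2 : 0 ≤ Real.log T := Real.log_nonneg (by linarith)
      have h3 : 0 ≤ C * (T * Real.log T) := by
        have : 0 ≤ T := by linarith
        positivity
      linarith
    induction n with
    | zero =>
      intro T hT hT2
      rw [pow_zero, one_mul] at hT2
      exact hbase T hT hT2
    | succ n ih =>
      intro T hT hT2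
      rcases le_or_gt T (2 * T0) with h0 | h0
      · exact hbase T hT h0
      · set V := T / 2 with hV
        have hVV : T0 ≤ V := by linarith
        have hTV : T = 2 * V := by rw [hV]; ring
        have hlog : Real.log V ≤ Real.log T := Real.log_le_log (by linarith) (by linarith)
        have h1 := ih V hVV (by
          rw [pow_succ] at hT2
          linarith)
        have h2 := h V hVV
        rw [hTV, QQ_step (by linarith)]
        have h3 : C * (V * Real.log V) ≤ C * (V * Real.log (2 * V)) := by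
          rw [← hTV]
          have : 0 ≤ V := by linarith
          gcongr
        linarith
  refine ⟨C + B0, T0, by positivity, hT0, fun T hT => ?_⟩
  obtain ⟨n, hn⟩ := pow_unbounded_of_one_lt (T / (2 * T0)) (one_lt_two)
  have h1 := hmain n T hT (by
    rw [div_lt_iff₀ (by linarith)] at hn
    exact hn.le)
  have h2 : 1 ≤ Real.log T := by
    rw [Real.le_log_iff_exp_le (by linarith)]
    linarith [Real.exp_one_lt_d9]
  have h3 : 1 ≤ T * Real.log T := by nlinarith
  nlinarith

end Pool.Agent.NH11.PV
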