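import Pool.Agent.NH11.PV.Full

set_option autoImplicit false

/-! # The pair sum of the tent as an average of the counting function -/

namespace Pool.Agent.NH11.PV

open Filter Topology Set MeasureTheory
open H370 (mult zset zeta_zeros_finite)

/-- multiplicity of `s` as a zero of the Riemann zeta function -/
noncomputable def zmult (s : ℂ) : ℕ := analyticOrderNatAt riemannZeta s

/-- the nontrivial zeros of `ζ` -/
def ZZ : Set ℂ := {s : ℂ | riemannZeta s = 0 ∧ 0 < s.re ∧ s.re < 1}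

/-- the counting function of the problem -/
noncomputable def Nstar (T a : ℝ) : ℕ :=
  ∑ᶠ p ∈ {p : ℂ × ℂ | p.1 ∈ ZZ ∧ p.2 ∈ ZZ ∧ 0 < p.1.im ∧ p.1.im ≤ T ∧
    0 < p.1.im - p.2.im ∧ p.1.im - p.2.im ≤ 2 * Real.pi * a / Real.log T}, zmult p.1 * zmult p.2

/-- pairs of equal ordinates -/
noncomputable def Neq (T : ℝ) : ℕ :=
  ∑ᶠ p ∈ {p : ℂ × ℂ | p.1 ∈ ZZ ∧ p.2 ∈ ZZ ∧ 0 < p.1.im ∧ p.1.im ≤ T ∧
    p.1.im = p.2.im}, zmult p.1 * zmult p.2

lemma mem_Zt' {T : ℝ} {s : ℂ} : s ∈ Zt T ↔ s ∈ ZZ ∧ 0 < s.im ∧ s.im ≤ T := by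
  rw [mem_Zt]
  simp only [zset, ZZ, Set.mem_ofPred_eq]
  tauto

lemma gap : ∃ δ : ℝ, 0 < δ ∧ ∀ s ∈ ZZ, 0 < s.im → δ ≤ s.im := by
  rcases (Zt 1).eq_empty_or_nonempty with h | h
  · refine ⟨1, one_pos, fun s hs h0 => ?_⟩
    by_contra hcon
    push Not at hcon
    have : s ∈ Zt 1 := mem_Zt'.2 ⟨hs, h0, hcon.le⟩
    rw [h] at this
    simp at this
  · obtain ⟨s0, hs0, hmin⟩ := (Zt 1).exists_min_image (fun s => s.im) h
    refine ⟨min 1 s0.im, lt_min one_pos (mem_Zt'.1 hs0).2.1, fun s hs h0 => ?_⟩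
    rcases le_or_gt s.im 1 with h1 | h1
    · exact (min_le_right _ _).trans (hmin s (mem_Zt'.2 ⟨hs, h0, h1⟩))
    · exact (min_le_left _ _).trans h1.le

lemma mz_zmult (s : ℂ) : mz s = (zmult s : ℝ) := rfl

lemma Nstar_eq {δ : ℝ} (hδ : ∀ s ∈ ZZ, 0 < s.im → δ ≤ s.im) {T a : ℝ}
    (ha : 2 * Real.pi * a / Real.log T < δ) :
    (Nstar T a : ℝ) = ∑ s ∈ Zt T, ∑ s' ∈ Zt T, mz s * mz s' *
      (if 0 < s.im - s'.im ∧ s.im - s'.im ≤ 2 * Real.pi * a / Real.log T then 1 else 0) := by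
  classical
  have e : {p : ℂ × ℂ | p.1 ∈ ZZ ∧ p.2 ∈ ZZ ∧ 0 < p.1.im ∧ p.1.im ≤ T ∧
      0 < p.1.im - p.2.im ∧ p.1.im - p.2.im ≤ 2 * Real.pi * a / Real.log T} =
      ↑((Zt T ×ˢ Zt T).filter fun p => 0 < p.1.im - p.2.im ∧
        p.1.im - p.2.im ≤ 2 * Real.pi * a / Real.log T) := by
    ext p
    rw [Finset.mem_coe, Finset.mem_filter, Finset.mem_product, mem_Zt', mem_Zt', Set.mem_ofPred_eq]
    constructor
    · rintro ⟨h1, h2, h3, h4, h5, h6⟩
      have := hδ p.1 h1 h3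
      exact ⟨⟨⟨h1, h3, h4⟩, h2, by linarith, by linarith⟩, h5, h6⟩
    · rintro ⟨⟨⟨h1, h3, h4⟩, h2, -, -⟩, h5, h6⟩
      exact ⟨h1, h2, h3, h4, h5, h6⟩
  unfold Nstar
  rw [e, finsum_mem_coe_finset, Finset.sum_filter, Finset.sum_product]
  push_cast
  refine Finset.sum_congr rfl fun s _ => Finset.sum_congr rfl fun s' _ => ?_
  rw [mz_zmult, mz_zmult]
  split_ifs <;> simp

lemma Neq_eq (T : ℝ) : (Neq T : ℝ) = ∑ s ∈ Zt T, ∑ s' ∈ Zt T, mz s * mz s' *
      (if s.im = s'.im then 1 else 0) := by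
  classical
  have e : {p : ℂ × ℂ | p.1 ∈ ZZ ∧ p.2 ∈ ZZ ∧ 0 < p.1.im ∧ p.1.im ≤ T ∧
      p.1.im = p.2.im} = ↑((Zt T ×ˢ Zt T).filter fun p => p.1.im = p.2.im) := by
    ext p
    rw [Finset.mem_coe, Finset.mem_filter, Finset.mem_product, mem_Zt', mem_Zt', Set.mem_ofPred_eq]
    constructor
    · rintro ⟨h1, h2, h3, h4, h5⟩
      exact ⟨⟨⟨h1, h3, h4⟩, h2, by linarith, by linarith⟩, h5⟩
    · rintro ⟨⟨⟨h1, h3, h4⟩, h2, -, -⟩, h5⟩
      exact ⟨h1, h2, h3, h4, h5⟩
  unfold Neq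
  rw [e, finsum_mem_coe_finset, Finset.sum_filter, Finset.sum_product]
  push_cast
  refine Finset.sum_congr rfl fun s _ => Finset.sum_congr rfl fun s' _ => ?_
  rw [mz_zmult, mz_zmult]
  split_ifs <;> simp

lemma stepf (c : ℝ) (x y : ℝ) :
    IntervalIntegrable (fun a : ℝ => if c ≤ a then (1 : ℝ) else 0) volume x y := by
  apply Monotone.intervalIntegrable
  intro u v huv
  show (if c ≤ u then (1 : ℝ) else 0) ≤ if c ≤ v then (1 : ℝ) else 0
  split_ifs with h1 h2
  · exact le_rfl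
  · exact absurd (h1.trans huv) h2
  · exact zero_le_one
  · exact le_rfl

lemma stepi {c b : ℝ} (hc : 0 < c) (hb : 0 ≤ b) :
    ∫ a in (0 : ℝ)..b, (if c ≤ a then (1 : ℝ) else 0) = max 0 (b - c) := by
  have e : (fun a : ℝ => if c ≤ a then (1 : ℝ) else 0) = (Set.Ici c).indicator (fun _ => (1 : ℝ)) := by
    funext a
    by_cases h : c ≤ a
    · rw [if_pos h, Set.indicator_of_mem (Set.mem_Ici.2 h)]
    · rw [if_neg h, Set.indicator_of_notMem (fun h' => h (Set.mem_Ici.1 h'))]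
  rw [intervalIntegral.integral_of_le hb, e, setIntegral_indicator measurableSet_Ici]
  have e2 : Set.Ioc 0 b ∩ Set.Ici c = Set.Icc c b := by
    ext x
    simp only [Set.mem_inter_iff, Set.mem_Ioc, Set.mem_Ici, Set.mem_Icc]
    constructor
    · rintro ⟨⟨h1, h2⟩, h3⟩; exact ⟨h3, h2⟩
    · rintro ⟨h1, h2⟩; exact ⟨⟨by linarith, h2⟩, h1⟩
  rw [e2, setIntegral_const, Real.volume_real_Icc, smul_eq_mul, mul_one, max_comm]

/-- the pair sum of the tent is an average of the counting function -/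
theorem VV_eq {δ : ℝ} (hδ0 : 0 < δ) (hδ : ∀ s ∈ ZZ, 0 < s.im → δ ≤ s.im) {T b : ℝ} (hb : 0 ≤ b)
    (hT : 1 < T) (hbT : 2 * Real.pi * b / Real.log T < δ) :
    IntervalIntegrable (fun a => (Nstar T a : ℝ)) volume 0 b ∧
    VV (Zt T) b (Real.log T) = b * Neq T + 2 * ∫ a in (0 : ℝ)..b, (Nstar T a : ℝ) := by
  classical
  have hpi := Real.pi_pos
  set L := Real.log T with hL
  have hL0 : 0 < L := Real.log_pos hT
  have h0 : ∀ a ∈ Set.uIcc (0 : ℝ) b, (Nstar T a : ℝ) = ∑ s ∈ Zt T, ∑ s' ∈ Zt T, mz s * mz s' *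
      ((if 0 < s.im - s'.im then 1 else 0) *
        (if (s.im - s'.im) * L / (2 * Real.pi) ≤ a then 1 else 0)) := by
    intro a ha
    rw [Set.uIcc_of_le hb] at ha
    rw [Nstar_eq hδ (lt_of_le_of_lt (by gcongr; exact ha.2) hbT)]
    refine Finset.sum_congr rfl fun s _ => Finset.sum_congr rfl fun s' _ => ?_
    congr 1
    have e : s.im - s'.im ≤ 2 * Real.pi * a / L ↔ (s.im - s'.im) * L / (2 * Real.pi) ≤ a := by
      rw [le_div_iff₀ hL0, div_le_iff₀ (by positivity), mul_comm a]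
    rw [← hL]
    simp only [e]
    by_cases h1 : 0 < s.im - s'.im
    · by_cases h2 : (s.im - s'.im) * L / (2 * Real.pi) ≤ a
      · rw [if_pos ⟨h1, h2⟩, if_pos h1, if_pos h2, one_mul]
      · rw [if_neg (fun h => h2 h.2), if_neg h2, mul_zero]
    · rw [if_neg (fun h => h1 h.1), if_neg h1, zero_mul]
  have hi : ∀ s s' : ℂ, IntervalIntegrable (fun a : ℝ => mz s * mz s' *
      ((if 0 < s.im - s'.im then (1 : ℝ) else 0) *
        (if (s.im - s'.im) * L / (2 * Real.pi) ≤ a then 1 else 0))) volume 0 b := fun s s' =>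
    ((stepf _ 0 b).const_mul _).const_mul _
  have hint : IntervalIntegrable (fun a => (Nstar T a : ℝ)) volume 0 b := by
    have h1 : IntervalIntegrable (fun a : ℝ => ∑ s ∈ Zt T, ∑ s' ∈ Zt T, mz s * mz s' *
      ((if 0 < s.im - s'.im then (1 : ℝ) else 0) *
        (if (s.im - s'.im) * L / (2 * Real.pi) ≤ a then 1 else 0))) volume 0 b := by
      have e1 : (fun a : ℝ => ∑ s ∈ Zt T, ∑ s' ∈ Zt T, mz s * mz s' *
        ((if 0 < s.im - s'.im then (1 : ℝ) else 0) *
          (if (s.im - s'.im) * L / (2 * Real.pi) ≤ a then 1 else 0))) =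
          ∑ s ∈ Zt T, ∑ s' ∈ Zt T, fun a : ℝ => mz s * mz s' *
        ((if 0 < s.im - s'.im then (1 : ℝ) else 0) *
          (if (s.im - s'.im) * L / (2 * Real.pi) ≤ a then 1 else 0)) := by
        funext a
        simp only [Finset.sum_apply]
      rw [e1]
      exact IntervalIntegrable.sum _ fun s _ => IntervalIntegrable.sum _ fun s' _ => hi s s'
    refine h1.congr ?_
    intro a ha
    exact (h0 a (Set.uIoc_subset_uIcc ha)).symm
  refine ⟨hint, ?_⟩
  have hI : ∫ a in (0 : ℝ)..b, (Nstar T a : ℝ) = ∑ s ∈ Zt T, ∑ s' ∈ Zt T, mz s * mz s' *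
      (if 0 < s.im - s'.im then max 0 (b - (s.im - s'.im) * L / (2 * Real.pi)) else 0) := by
    rw [intervalIntegral.integral_congr h0, intervalIntegral.integral_finset_sum]
    · refine Finset.sum_congr rfl fun s _ => ?_
      rw [intervalIntegral.integral_finset_sum]
      · refine Finset.sum_congr rfl fun s' _ => ?_
        rw [intervalIntegral.integral_const_mul, intervalIntegral.integral_const_mul]
        congr 1
        by_cases h1 : 0 < s.im - s'.im
        · rw [if_pos h1, if_pos h1, one_mul, stepi (by positivity) hb]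
        · rw [if_neg h1, if_neg h1, zero_mul]
      · intro s' _
        exact hi s s'
    · intro s _
      have e1 : (fun a : ℝ => ∑ s' ∈ Zt T, mz s * mz s' *
        ((if 0 < s.im - s'.im then (1 : ℝ) else 0) *
          (if (s.im - s'.im) * L / (2 * Real.pi) ≤ a then 1 else 0))) =
          ∑ s' ∈ Zt T, fun a : ℝ => mz s * mz s' *
        ((if 0 < s.im - s'.im then (1 : ℝ) else 0) *
          (if (s.im - s'.im) * L / (2 * Real.pi) ≤ a then 1 else 0)) := by
        funext a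
        simp only [Finset.sum_apply]
      rw [e1]
      exact IntervalIntegrable.sum _ fun s' _ => hi s s'
  have hswap : ∑ s ∈ Zt T, ∑ s' ∈ Zt T, mz s * mz s' *
      (if 0 < s.im - s'.im then max 0 (b - (s.im - s'.im) * L / (2 * Real.pi)) else 0) =
      ∑ s ∈ Zt T, ∑ s' ∈ Zt T, mz s * mz s' *
      (if 0 < s'.im - s.im then max 0 (b - (s'.im - s.im) * L / (2 * Real.pi)) else 0) := by
    rw [Finset.sum_comm]
    refine Finset.sum_congr rfl fun s _ => Finset.sum_congr rfl fun s' _ => ?_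
    rw [mul_comm (mz s')]
  rw [two_mul]
  nth_rw 2 [hI]
  rw [hI, hswap, ← hswap, Neq_eq, Finset.mul_sum]
  nth_rw 2 [hswap]
  rw [← Finset.sum_add_distrib, ← Finset.sum_add_distrib]
  unfold VV
  refine Finset.sum_congr rfl fun s _ => ?_
  rw [Finset.mul_sum, ← Finset.sum_add_distrib, ← Finset.sum_add_distrib]
  refine Finset.sum_congr rfl fun s' _ => ?_
  rcases lt_trichotomy s.im s'.im with h | h | h
  · rw [if_neg (by linarith : ¬ 0 < s.im - s'.im), if_pos (by linarith : 0 < s'.im - s.im),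
      if_neg h.ne]
    unfold tent
    have e : |(s.im - s'.im) * L / (2 * Real.pi)| = (s'.im - s.im) * L / (2 * Real.pi) := by
      rw [abs_div, abs_mul, abs_of_neg (by linarith : s.im - s'.im < 0), abs_of_pos hL0,
        abs_of_pos (by positivity : 0 < 2 * Real.pi)]
      ring
    rw [e]
    ring
  · rw [if_neg (by linarith : ¬ 0 < s.im - s'.im), if_neg (by linarith : ¬ 0 < s'.im - s.im),
      if_pos h, h]
    unfold tent
    simp only [sub_self, zero_mul, zero_div, abs_zero, sub_zero]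
    rw [max_eq_right hb]
    ring
  · rw [if_pos (by linarith : 0 < s.im - s'.im), if_neg (by linarith : ¬ 0 < s'.im - s.im),
      if_neg h.ne']
    unfold tent
    have e : |(s.im - s'.im) * L / (2 * Real.pi)| = (s.im - s'.im) * L / (2 * Real.pi) := by
      rw [abs_div, abs_mul, abs_of_pos (by linarith : 0 < s.im - s'.im), abs_of_pos hL0,
        abs_of_pos (by positivity : 0 < 2 * Real.pi)]
    rw [e]
    ring

end Pool.Agent.NH11.PV
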