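import Mathlib

set_option autoImplicit false

/-! # Pairs at bounded distance are controlled by pairs at distance at most one -/

namespace Pool.Agent.NH11.PV

open Set MeasureTheory

/-- the mass of the cell `k` -/
noncomputable def cell {ι : Type*} (S : Finset ι) (m u : ι → ℝ) (k : ℤ) : ℝ :=
  ∑ i ∈ S, if ⌊u i⌋ = k then m i else 0

lemma cell_nonneg {ι : Type*} {S : Finset ι} {m : ι → ℝ} (u : ι → ℝ) (hm : ∀ i ∈ S, 0 ≤ m i)
    (k : ℤ) : 0 ≤ cell S m u k := by
  unfold cell
  apply Finset.sum_nonneg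
  intro i hi
  split_ifs
  · exact hm i hi
  · exact le_rfl

lemma cell_sum {ι : Type*} (S : Finset ι) (m u : ι → ℝ) (K : Finset ℤ) (g : ℤ → ℝ) (h : ℤ) :
    ∑ k ∈ K, cell S m u (k + h) * g (k + h) = ∑ i ∈ S, if ⌊u i⌋ - h ∈ K then m i * g ⌊u i⌋ else 0 := by
  classical
  unfold cell
  simp_rw [Finset.sum_mul]
  rw [Finset.sum_comm]
  refine Finset.sum_congr rfl fun i _ => ?_
  split_ifs with h1
  · rw [Finset.sum_eq_single (⌊u i⌋ - h)]
    · simp
    · intro k _ hk
      rw [if_neg, zero_mul]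
      intro h2
      exact hk (by linarith)
    · intro h2; exact absurd h1 h2
  · apply Finset.sum_eq_zero
    intro k hk
    rw [if_neg, zero_mul]
    intro h2
    apply h1
    have : ⌊u i⌋ - h = k := by linarith
    rw [this]; exact hk

lemma cell_shift {ι : Type*} (S : Finset ι) (m u : ι → ℝ) (hm : ∀ i ∈ S, 0 ≤ m i) (h : ℤ) :
    ∑ i ∈ S, m i * cell S m u (⌊u i⌋ + h) ≤ ∑ i ∈ S, m i * cell S m u ⌊u i⌋ := by
  classical
  set K : Finset ℤ := S.image fun i => ⌊u i⌋ with hK
  have hc := cell_nonneg (m := m) (S := S) u hm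
  have e1 : ∑ k ∈ K, cell S m u k * cell S m u (k + h) = ∑ i ∈ S, m i * cell S m u (⌊u i⌋ + h) := by
    have := cell_sum S m u K (fun k => cell S m u (k + h)) 0
    simp only [add_zero, sub_zero] at this
    rw [this]
    refine Finset.sum_congr rfl fun i hi => ?_
    rw [if_pos (Finset.mem_image_of_mem _ hi)]
  have e2 : ∑ k ∈ K, cell S m u k * cell S m u k = ∑ i ∈ S, m i * cell S m u ⌊u i⌋ := by
    have := cell_sum S m u K (fun k => cell S m u k) 0
    simp only [add_zero, sub_zero] at this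
    rw [this]
    refine Finset.sum_congr rfl fun i hi => ?_
    rw [if_pos (Finset.mem_image_of_mem _ hi)]
  have e3 : ∑ k ∈ K, cell S m u (k + h) * cell S m u (k + h) ≤
      ∑ i ∈ S, m i * cell S m u ⌊u i⌋ := by
    rw [cell_sum S m u K (fun k => cell S m u k) h]
    refine Finset.sum_le_sum fun i hi => ?_
    split_ifs
    · exact le_rfl
    · exact mul_nonneg (hm i hi) (hc _)
  have e4 : ∑ k ∈ K, cell S m u k * cell S m u (k + h) ≤
      (∑ k ∈ K, cell S m u k * cell S m u k + ∑ k ∈ K, cell S m u (k + h) * cell S m u (k + h)) / 2 := by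
    rw [← Finset.sum_add_distrib, Finset.sum_div]
    refine Finset.sum_le_sum fun k _ => ?_
    nlinarith [sq_nonneg (cell S m u k - cell S m u (k + h))]
  rw [← e1]
  linarith

/-- pairs at distance at most `2π` against those at distance at most `1` -/
theorem close_cells {ι : Type*} (S : Finset ι) (m u : ι → ℝ) (hm : ∀ i ∈ S, 0 ≤ m i) :
    ∑ i ∈ S, ∑ k ∈ S, m i * m k * (if |u i - u k| ≤ 2 * Real.pi then 1 else 0) ≤
      15 * ∑ i ∈ S, ∑ k ∈ S, m i * m k * (if |u i - u k| ≤ 1 then 1 else 0) := by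
  classical
  have hpi := Real.pi_lt_d2
  -- first bound by the cells
  have h1 : ∑ i ∈ S, ∑ k ∈ S, m i * m k * (if |u i - u k| ≤ 2 * Real.pi then 1 else 0) ≤
      ∑ h ∈ Finset.Icc (-7 : ℤ) 7, ∑ i ∈ S, m i * cell S m u (⌊u i⌋ + h) := by
    rw [Finset.sum_comm (s := Finset.Icc (-7 : ℤ) 7)]
    refine Finset.sum_le_sum fun i hi => ?_
    rw [← Finset.mul_sum]
    unfold cell
    rw [Finset.sum_comm (s := Finset.Icc (-7 : ℤ) 7), Finset.mul_sum]
    refine Finset.sum_le_sum fun k hk => ?_
    rw [mul_assoc]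
    apply mul_le_mul_of_nonneg_left _ (hm i hi)
    split_ifs with hd
    · rw [mul_one]
      have hmem : ⌊u k⌋ - ⌊u i⌋ ∈ Finset.Icc (-7 : ℤ) 7 := by
        rw [Finset.mem_Icc]
        obtain ⟨d1, d2⟩ := abs_le.1 hd
        have a1 := Int.floor_le (u i)
        have a2 := Int.lt_floor_add_one (u i)
        have a3 := Int.floor_le (u k)
        have a4 := Int.lt_floor_add_one (u k)
        constructor
        · have : (-8 : ℝ) < ((⌊u k⌋ - ⌊u i⌋ : ℤ) : ℝ) := by push_cast; linarith
          have h8 : (-8 : ℤ) < ⌊u k⌋ - ⌊u i⌋ := by exact_mod_cast this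
          omega
        · have : ((⌊u k⌋ - ⌊u i⌋ : ℤ) : ℝ) < 8 := by push_cast; linarith
          have h8 : ⌊u k⌋ - ⌊u i⌋ < (8 : ℤ) := by exact_mod_cast this
          omega
      calc m k = (if ⌊u k⌋ = ⌊u i⌋ + (⌊u k⌋ - ⌊u i⌋) then m k else 0) := by
            rw [if_pos (by ring)]
        _ ≤ _ := Finset.single_le_sum (f := fun h : ℤ => if ⌊u k⌋ = ⌊u i⌋ + h then m k else 0)
            (fun h _ => by
              show 0 ≤ if ⌊u k⌋ = ⌊u i⌋ + h then m k else 0
              split_ifs
              · exact hm k hk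
              · exact le_rfl) hmem
    · rw [mul_zero]
      apply Finset.sum_nonneg
      intro h _
      split_ifs
      · exact hm k hk
      · exact le_rfl
  have h2 : ∑ h ∈ Finset.Icc (-7 : ℤ) 7, ∑ i ∈ S, m i * cell S m u (⌊u i⌋ + h) ≤
      15 * ∑ i ∈ S, m i * cell S m u ⌊u i⌋ := by
    calc _ ≤ ∑ h ∈ Finset.Icc (-7 : ℤ) 7, ∑ i ∈ S, m i * cell S m u ⌊u i⌋ :=
          Finset.sum_le_sum fun h _ => cell_shift S m u hm h
      _ = _ := by simp
  have h3 : ∑ i ∈ S, m i * cell S m u ⌊u i⌋ ≤
      ∑ i ∈ S, ∑ k ∈ S, m i * m k * (if |u i - u k| ≤ 1 then 1 else 0) := by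
    refine Finset.sum_le_sum fun i hi => ?_
    unfold cell
    rw [Finset.mul_sum]
    refine Finset.sum_le_sum fun k hk => ?_
    rw [mul_assoc]
    apply mul_le_mul_of_nonneg_left _ (hm i hi)
    split_ifs with a b
    · rw [mul_one]
    · exfalso
      apply b
      have a1 := Int.floor_le (u i)
      have a2 := Int.lt_floor_add_one (u i)
      have a3 := Int.floor_le (u k)
      have a4 := Int.lt_floor_add_one (u k)
      rw [a] at a3 a4
      rw [abs_le]; constructor <;> linarith
    · rw [mul_one]; exact hm k hk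
    · simp
  linarith

/-- from the second moment of the local counts to close pairs -/
theorem close_of_moment {ι : Type*} (S : Finset ι) (m y : ι → ℝ) (hm : ∀ i ∈ S, 0 ≤ m i) {w B : ℝ}
    (hw : 0 < w) (hB : 0 ≤ B)
    (h : ∫⁻ t : ℝ, ENNReal.ofReal ((∑ s ∈ S.filter (fun s => |y s - t| ≤ w), m s) ^ 2) ≤
      ENNReal.ofReal B) :
    w * ∑ i ∈ S, ∑ k ∈ S, m i * m k * (if |y i - y k| ≤ w then 1 else 0) ≤ B := by
  classical
  set g : ℝ → ℝ := fun t => ∑ i ∈ S, ∑ k ∈ S, m i * m k * (if |y i - y k| ≤ w then 1 else 0) *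
    (Set.Icc ((y i + y k) / 2 - w / 2) ((y i + y k) / 2 + w / 2)).indicator (fun _ => (1 : ℝ)) t
    with hg
  have hind : ∀ c : ℝ, Integrable ((Set.Icc (c - w / 2) (c + w / 2)).indicator
      (fun _ => (1 : ℝ))) := by
    intro c
    rw [integrable_indicator_iff measurableSet_Icc]
    exact integrableOn_const (by simp)
  have hind2 : ∀ c : ℝ, ∫ t, (Set.Icc (c - w / 2) (c + w / 2)).indicator
      (fun _ => (1 : ℝ)) t = w := by
    intro c
    rw [integral_indicator measurableSet_Icc, setIntegral_const]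
    simp only [smul_eq_mul, mul_one, Measure.real, Real.volume_Icc]
    rw [ENNReal.toReal_ofReal (by linarith)]
    ring
  have hgi : Integrable g := integrable_finset_sum _ fun i _ => integrable_finset_sum _ fun k _ =>
    (hind _).const_mul _
  have hg1 : ∫ t, g t = w * ∑ i ∈ S, ∑ k ∈ S, m i * m k * (if |y i - y k| ≤ w then 1 else 0) := by
    rw [hg, integral_finset_sum _ fun i _ => integrable_finset_sum _ fun k _ => (hind _).const_mul _,
      Finset.mul_sum]
    refine Finset.sum_congr rfl fun i _ => ?_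
    rw [integral_finset_sum _ fun k _ => (hind _).const_mul _, Finset.mul_sum]
    refine Finset.sum_congr rfl fun k _ => ?_
    rw [integral_const_mul, hind2]
    ring
  have hg0 : ∀ t, 0 ≤ g t := by
    intro t
    refine Finset.sum_nonneg fun i hi => Finset.sum_nonneg fun k hk => ?_
    refine mul_nonneg (mul_nonneg (mul_nonneg (hm i hi) (hm k hk)) ?_) ?_
    · split_ifs <;> norm_num
    · exact Set.indicator_nonneg (fun _ _ => zero_le_one) _
  have hle : ∀ t, g t ≤ (∑ s ∈ S.filter (fun s => |y s - t| ≤ w), m s) ^ 2 := by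
    intro t
    rw [Finset.sum_filter, sq, Finset.sum_mul_sum]
    refine Finset.sum_le_sum fun i hi => Finset.sum_le_sum fun k hk => ?_
    have h1 := hm i hi
    have h2 := hm k hk
    by_cases h3 : |y i - y k| ≤ w
    · by_cases h4 : t ∈ Set.Icc ((y i + y k) / 2 - w / 2) ((y i + y k) / 2 + w / 2)
      · obtain ⟨a1, a2⟩ := h4
        obtain ⟨b1, b2⟩ := abs_le.1 h3
        have c1 : |y i - t| ≤ w := by rw [abs_le]; constructor <;> linarith
        have c2 : |y k - t| ≤ w := by rw [abs_le]; constructor <;> linarith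
        rw [Set.indicator_of_mem (Set.mem_Icc.2 ⟨a1, a2⟩), if_pos h3, if_pos c1, if_pos c2]
        simp
      · rw [Set.indicator_of_notMem h4, mul_zero]
        apply mul_nonneg
        · split_ifs
          · exact h1
          · exact le_rfl
        · split_ifs
          · exact h2
          · exact le_rfl
    · rw [if_neg h3]
      simp only [mul_zero, zero_mul]
      apply mul_nonneg
      · split_ifs
        · exact h1
        · exact le_rfl
      · split_ifs
        · exact h2
        · exact le_rfl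
  have h5 : ENNReal.ofReal (∫ t, g t) ≤ ENNReal.ofReal B := by
    rw [ofReal_integral_eq_lintegral_ofReal hgi (Filter.Eventually.of_forall hg0)]
    exact (lintegral_mono fun t => ENNReal.ofReal_le_ofReal (hle t)).trans h
  rw [hg1] at h5
  exact (ENNReal.ofReal_le_ofReal_iff hB).1 h5

end Pool.Agent.NH11.PV
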