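import Pool.Agent.NH11.PV.Cut

set_option autoImplicit false

/-! # The main term: twice the primitive of Montgomery's density -/

namespace Pool.Agent.NH11.PV

open Filter Topology Set MeasureTheory

/-- the main term -/
noncomputable def PP (b : ℝ) : ℝ := b ^ 2 + ∫ α : ℝ, min |α| 1 * KK b α

/-- the density -/
noncomputable def dens (u : ℝ) : ℝ := 1 - Real.sinc (Real.pi * u) ^ 2

/-- the conjectured function -/
noncomputable def GG (a : ℝ) : ℝ := ∫ u in (0 : ℝ)..a, dens u

lemma dens_cont : Continuous dens := by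
  unfold dens
  have := Real.continuous_sinc
  fun_prop

lemma dens_nonneg (u : ℝ) : 0 ≤ dens u := by
  unfold dens
  have h1 := Real.abs_sinc_le_one (Real.pi * u)
  have : Real.sinc (Real.pi * u) ^ 2 ≤ 1 := by
    rw [← sq_abs]; exact pow_le_one₀ (abs_nonneg _) h1
  linarith

lemma dens_le_one (u : ℝ) : dens u ≤ 1 := by
  unfold dens
  have := sq_nonneg (Real.sinc (Real.pi * u))
  linarith

lemma dens_even (u : ℝ) : dens (-u) = dens u := by
  unfold dens
  rw [mul_neg, Real.sinc_neg]

lemma KK_one (u : ℝ) : 1 - KK 1 u = dens u := by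
  unfold KK dens
  rw [one_mul, mul_one]

lemma GG_deriv (a : ℝ) : HasDerivAt GG (dens a) a := by
  unfold GG
  exact intervalIntegral.integral_hasDerivAt_right (dens_cont.intervalIntegrable _ _)
    (dens_cont.stronglyMeasurableAtFilter _ _) dens_cont.continuousAt

lemma GG_cont : Continuous GG := by
  rw [continuous_iff_continuousAt]
  exact fun a => (GG_deriv a).continuousAt

lemma GG_zero : GG 0 = 0 := by unfold GG; simp

lemma GG_nonneg {a : ℝ} (ha : 0 ≤ a) : 0 ≤ GG a := by
  unfold GG
  exact intervalIntegral.integral_nonneg ha fun u _ => dens_nonneg u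

lemma GG_le {a : ℝ} (ha : 0 ≤ a) : GG a ≤ a := by
  unfold GG
  calc ∫ u in (0 : ℝ)..a, dens u ≤ ∫ u in (0 : ℝ)..a, (1 : ℝ) :=
        intervalIntegral.integral_mono_on ha (dens_cont.intervalIntegrable _ _)
          (by simp) fun u _ => dens_le_one u
    _ = a := by simp

lemma minabs_cont : Continuous (fun α : ℝ => min |α| 1) := by fun_prop

lemma minabs_nonneg (α : ℝ) : 0 ≤ min |α| 1 := le_min (abs_nonneg _) zero_le_one

lemma minKK_int {b : ℝ} (hb : 0 < b) : Integrable (fun α : ℝ => min |α| 1 * KK b α) := by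
  refine (KK_int hb).mono' (minabs_cont.mul (KK_cont b)).aestronglyMeasurable
    (Filter.Eventually.of_forall fun α => ?_)
  rw [Real.norm_eq_abs, abs_of_nonneg (mul_nonneg (minabs_nonneg α) (KK_nonneg b α))]
  exact mul_le_of_le_one_left (KK_nonneg b α) (min_le_right _ _)

lemma absjK_le (b α : ℝ) : |α| * (jj α * KK b α) ≤ min |α| 1 * KK b α := by
  rw [← mul_assoc]
  apply mul_le_mul_of_nonneg_right _ (KK_nonneg b α)
  have h1 := jj_le_one α
  have h2 := jj_nonneg α
  have h3 := abs_nonneg α
  apply le_min
  · nlinarith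
  · rcases le_or_gt (1 / 2) |α| with h | h
    · rw [jj_zero h]; simp
    · nlinarith

lemma absjK_int {b : ℝ} (hb : 0 < b) : Integrable (fun α : ℝ => |α| * (jj α * KK b α)) := by
  have hj : Continuous jj := (jj_contDiff (n := 0)).continuous
  refine (minKK_int hb).mono' (by
    have := KK_cont b
    exact (by fun_prop : Continuous fun α : ℝ => |α| * (jj α * KK b α)).aestronglyMeasurable)
    (Filter.Eventually.of_forall fun α => ?_)
  rw [Real.norm_eq_abs, abs_of_nonneg
    (mul_nonneg (abs_nonneg _) (mul_nonneg (jj_nonneg α) (KK_nonneg b α)))]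
  exact absjK_le b α

/-- a majorant for the difference -/
noncomputable def mj (α : ℝ) : ℝ := 3 * ct sq1 α

/-- the truncation costs `O(1)` -/
theorem trunc_main {b : ℝ} (hb : 0 < b) :
    0 ≤ PP b - (b ^ 2 + ∫ α : ℝ, |α| * (jj α * KK b α)) ∧
    PP b - (b ^ 2 + ∫ α : ℝ, |α| * (jj α * KK b α)) ≤ 3 := by
  unfold PP
  have e2 : (b ^ 2 + ∫ α : ℝ, min |α| 1 * KK b α) - (b ^ 2 + ∫ α : ℝ, |α| * (jj α * KK b α)) =
      ∫ α : ℝ, (min |α| 1 * KK b α - |α| * (jj α * KK b α)) := by
    rw [integral_sub (minKK_int hb) (absjK_int hb)]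
    ring
  rw [e2]
  constructor
  · apply integral_nonneg
    intro α
    have := absjK_le b α
    show 0 ≤ min |α| 1 * KK b α - |α| * (jj α * KK b α)
    linarith
  · have h1 : ∫ α, ct sq1 α = 1 := by
      have := sq1_inv 0
      simp only [mul_zero, Real.cos_zero, mul_one] at this
      rw [this]
      unfold sq1 tent
      simp
    have h2 : ∫ α, 3 * ct sq1 α = 3 := by rw [integral_const_mul, h1]; norm_num
    rw [← h2]
    refine integral_mono ((minKK_int hb).sub (absjK_int hb)) (sq1_int.const_mul 3) fun α => ?_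
    show min |α| 1 * KK b α - |α| * (jj α * KK b α) ≤ 3 * ct sq1 α
    have h3 := ct_sq1_nonneg α
    have h4 := KK_nonneg b α
    rcases le_or_gt |α| (1 / 4) with h | h
    · rw [jj_one h, min_eq_left (by linarith)]
      linarith
    · have h5 := KK_le_dom hb h.le
      have h6 : 0 ≤ |α| * (jj α * KK b α) :=
        mul_nonneg (abs_nonneg _) (mul_nonneg (jj_nonneg α) h4)
      have h7 : min |α| 1 * KK b α ≤ KK b α := mul_le_of_le_one_left h4 (min_le_right _ _)
      linarith

/-- self-adjointness of the cosine transform on tents -/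
lemma adj {b : ℝ} (hb : 0 < b) :
    ∫ α, tent 1 α * KK b α = ∫ u, tent b u * KK 1 u := by
  have h1 : ∀ α, tent 1 α * KK b α = ∫ u, tent 1 α * (tent b u * Real.cos (2 * Real.pi * u * α)) := by
    intro α
    rw [integral_const_mul, ← ct_tent hb]
    rfl
  have h2 : ∀ u, tent b u * KK 1 u = ∫ α, tent 1 α * (tent b u * Real.cos (2 * Real.pi * u * α)) := by
    intro u
    rw [← ct_tent one_pos]
    unfold ct
    rw [← integral_const_mul]
    congr 1
    funext α
    rw [show 2 * Real.pi * α * u = 2 * Real.pi * u * α by ring]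
    ring
  simp_rw [h1, h2]
  apply integral_integral_swap
  have hc : Continuous (Function.uncurry fun α u : ℝ =>
      tent 1 α * (tent b u * Real.cos (2 * Real.pi * u * α))) := by
    unfold Function.uncurry
    have a1 := tent_cont 1
    have a2 := tent_cont b
    fun_prop
  rw [← Measure.volume_eq_prod]
  apply hc.integrable_of_hasCompactSupport
  apply HasCompactSupport.intro ((isCompact_Icc (a := (-1 : ℝ)) (b := 1)).prod
    (isCompact_Icc (a := -b) (b := b)))
  rintro ⟨α, u⟩ hp
  show tent 1 α * (tent b u * Real.cos (2 * Real.pi * u * α)) = 0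
  rcases le_or_gt |α| 1 with h | h
  · rcases le_or_gt |u| b with h' | h'
    · exact absurd (Set.mk_mem_prod (abs_le.1 h) (abs_le.1 h')) hp
    · rw [tent_zero h'.le]; ring
  · rw [tent_zero h.le]; ring

lemma tent_integrable (b : ℝ) : Integrable (tent b) := int_cs (tent_cont b) fun _ hx => tent_zero hx

lemma int_tent {b : ℝ} (hb : 0 < b) : ∫ u, tent b u = b ^ 2 := by
  have h := ct_tent hb 0
  unfold ct KK at h
  simp only [mul_zero, Real.cos_zero, mul_one, Real.sinc_zero] at h
  exact h

lemma int_KK {b : ℝ} (hb : 0 < b) : ∫ α, KK b α = b := by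
  have h := KK_inv hb 0
  simp only [mul_zero, Real.cos_zero, mul_one] at h
  rw [h]
  unfold tent
  rw [abs_zero, sub_zero, max_eq_right hb.le]

lemma tentKK_int (b a : ℝ) : Integrable (fun u => tent a u * KK b u) := by
  apply Continuous.integrable_of_hasCompactSupport
  · exact (tent_cont a).mul (KK_cont b)
  · apply HasCompactSupport.intro (isCompact_Icc (a := -a) (b := a))
    intro x hx
    rw [tent_zero, zero_mul]
    by_contra h
    push Not at h
    exact hx (abs_le.1 h.le)

theorem PP_eq1 {b : ℝ} (hb : 0 < b) : PP b = b + ∫ u, tent b u * dens u := by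
  have h1 : ∀ α : ℝ, min |α| 1 * KK b α = KK b α - tent 1 α * KK b α := by
    intro α
    have : min |α| 1 = 1 - tent 1 α := by
      unfold tent
      rcases le_total |α| 1 with h | h
      · rw [min_eq_left h, max_eq_right (by linarith)]; ring
      · rw [min_eq_right h, max_eq_left (by linarith)]; ring
    rw [this]; ring
  have h2 : ∀ u : ℝ, tent b u * dens u = tent b u - tent b u * KK 1 u := by
    intro u
    rw [← KK_one]; ring
  unfold PP
  simp_rw [h1, h2]
  rw [integral_sub (KK_int hb) (tentKK_int b 1), integral_sub (tent_integrable b)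
    (tentKK_int 1 b), adj hb, int_tent hb, int_KK hb]
  ring

theorem PP_eq {b : ℝ} (hb : 0 < b) : PP b = b + 2 * ∫ a in (0 : ℝ)..b, GG a := by
  rw [PP_eq1 hb]
  congr 1
  have hc : Continuous fun u => tent b u * dens u := (tent_cont b).mul dens_cont
  have e1 : ∫ u, tent b u * dens u = ∫ u in (-b)..b, tent b u * dens u := by
    symm
    apply intervalIntegral.integral_eq_integral_of_support_subset
    intro α hα
    by_contra h
    apply hα
    have : b ≤ |α| := by
      by_contra h2
      push Not at h2
      obtain ⟨h3, h4⟩ := abs_lt.1 h2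
      exact h ⟨by linarith, by linarith⟩
    show tent b α * dens α = 0
    rw [tent_zero this, zero_mul]
  rw [e1, ← intervalIntegral.integral_add_adjacent_intervals (b := 0) (hc.intervalIntegrable _ _)
      (hc.intervalIntegrable _ _)]
  have e2 : ∫ x in (-b)..0, tent b x * dens x = ∫ x in (0 : ℝ)..b, tent b x * dens x := by
    have := intervalIntegral.integral_comp_neg (a := 0) (b := b) (fun x : ℝ => tent b x * dens x)
    rw [neg_zero] at this
    rw [← this]
    refine intervalIntegral.integral_congr fun x _ => ?_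
    show tent b (-x) * dens (-x) = tent b x * dens x
    rw [tent_even, dens_even]
  have e3 : ∫ x in (0 : ℝ)..b, tent b x * dens x = ∫ x in (0 : ℝ)..b, (b - x) * dens x := by
    refine intervalIntegral.integral_congr fun x hx => ?_
    rw [Set.uIcc_of_le hb.le] at hx
    show tent b x * dens x = (b - x) * dens x
    unfold tent
    rw [abs_of_nonneg hx.1, max_eq_right (by linarith [hx.2])]
  have e4 : ∫ x in (0 : ℝ)..b, (-GG x + (b - x) * dens x) = 0 := by
    have h2 : ∀ x ∈ Set.uIcc (0 : ℝ) b, HasDerivAt (fun x : ℝ => (b - x) * GG x)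
        (-GG x + (b - x) * dens x) x := by
      intro x _
      have h6 : HasDerivAt (fun x : ℝ => b - x) (-1) x := by
        simpa using (hasDerivAt_id x).const_sub b
      have := h6.mul (GG_deriv x)
      refine this.congr_deriv ?_
      ring
    rw [intervalIntegral.integral_eq_sub_of_hasDerivAt h2]
    · rw [GG_zero]; ring
    · have := GG_cont
      have := dens_cont
      exact (by fun_prop : Continuous fun x : ℝ => -GG x + (b - x) * dens x).intervalIntegrable _ _
  have e5 : ∫ x in (0 : ℝ)..b, (-GG x + (b - x) * dens x) =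
      -(∫ x in (0 : ℝ)..b, GG x) + ∫ x in (0 : ℝ)..b, (b - x) * dens x := by
    have h1 := GG_cont
    have h2 := dens_cont
    rw [intervalIntegral.integral_add
      ((by fun_prop : Continuous fun x : ℝ => -GG x).intervalIntegrable _ _)
      ((by fun_prop : Continuous fun x : ℝ => (b - x) * dens x).intervalIntegrable _ _),
      intervalIntegral.integral_neg]
  rw [e2, e3]
  linarith

lemma PP_nonneg {b : ℝ} (hb : 0 < b) : 0 ≤ PP b := by
  rw [PP_eq hb]
  have : 0 ≤ ∫ a in (0 : ℝ)..b, GG a :=
    intervalIntegral.integral_nonneg hb.le fun a ha => GG_nonneg ha.1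
  linarith

/-- continuity of the main term -/
lemma PP_close {b b' : ℝ} (hb' : 0 < b') (h : b' ≤ b) :
    PP b - PP b' ≤ (b - b') * (1 + 2 * b) ∧ PP b' ≤ PP b := by
  have hb : 0 < b := by linarith
  rw [PP_eq hb, PP_eq hb']
  have hi : ∀ x y : ℝ, IntervalIntegrable GG volume x y := fun x y => GG_cont.intervalIntegrable x y
  have h1 : (∫ a in (0 : ℝ)..b, GG a) = (∫ a in (0 : ℝ)..b', GG a) + ∫ a in b'..b, GG a :=
    (intervalIntegral.integral_add_adjacent_intervals (hi _ _) (hi _ _)).symm
  have h2 : ∫ a in b'..b, GG a ≤ ∫ a in b'..b, b := by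
    refine intervalIntegral.integral_mono_on h (hi _ _) (by simp) fun a ha => ?_
    exact (GG_le (by linarith [ha.1])).trans ha.2
  have h3 : 0 ≤ ∫ a in b'..b, GG a :=
    intervalIntegral.integral_nonneg h fun a ha => GG_nonneg (by linarith [ha.1])
  rw [intervalIntegral.integral_const, smul_eq_mul] at h2
  constructor
  · rw [h1]; nlinarith
  · rw [h1]; linarith

end Pool.Agent.NH11.PV
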