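import Pool.Agent.W54.TCF.NT
import Pool.Agent.NH11.PV.Prim

set_option autoImplicit false

/-! # From dyadic blocks to all the zeros up to height `T` -/

namespace Pool.Agent.NH11.PV

open Filter Topology Set MeasureTheory
open H370 (Zf mult mem_Zf good_zeta zset NN NN_eq zeta_zeros_finite)

/-- multiplicity -/
noncomputable def mz (s : ℂ) : ℝ := (mult riemannZeta s : ℝ)

lemma mz_nonneg (s : ℂ) : 0 ≤ mz s := Nat.cast_nonneg _

/-- the zeros up to height `T` -/
noncomputable def Zt (T : ℝ) : Finset ℂ := (zeta_zeros_finite T).toFinset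

/-- the zeros with ordinate in `(A, B]` -/
noncomputable def Zb (A B : ℝ) : Finset ℂ := Zf riemannZeta A B

lemma mem_Zt {T : ℝ} {s : ℂ} : s ∈ Zt T ↔ s ∈ zset riemannZeta 0 T := by
  unfold Zt
  rw [Set.Finite.mem_toFinset]

lemma mem_Zb {A B : ℝ} (hA : 1 ≤ A) {s : ℂ} : s ∈ Zb A B ↔ s ∈ zset riemannZeta A B :=
  mem_Zf good_zeta hA

lemma Zt_split {V T : ℝ} (hV : 1 ≤ V) (hVT : V ≤ T) : Zt T = Zt V ∪ Zb V T := by
  ext s
  rw [Finset.mem_union, mem_Zt, mem_Zt, mem_Zb hV]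
  simp only [zset, Set.mem_ofPred_eq]
  constructor
  · rintro ⟨a1, a2, a3, a4, a5⟩
    rcases le_or_gt s.im V with h1 | h1
    · exact Or.inl ⟨a1, a2, a3, h1, a5⟩
    · exact Or.inr ⟨a1, a2, h1, a4, a5⟩
  · rintro (⟨a1, a2, a3, a4, a5⟩ | ⟨a1, a2, a3, a4, a5⟩)
    · exact ⟨a1, a2, a3, a4.trans hVT, a5⟩
    · exact ⟨a1, a2, by linarith, a4, a5⟩

lemma Zt_disj {V T : ℝ} (hV : 1 ≤ V) : Disjoint (Zt V) (Zb V T) := by
  rw [Finset.disjoint_left]
  intro s h1 h2
  rw [mem_Zt] at h1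
  rw [mem_Zb hV] at h2
  obtain ⟨a1, a2, a3, a4, a5⟩ := h1
  obtain ⟨b1, b2, b3, b4, b5⟩ := h2
  linarith

lemma sum_Zb {A B : ℝ} (hA : 1 ≤ A) : ∑ s ∈ Zb A B, mz s = (NN riemannZeta A B : ℝ) := by
  unfold Zb mz
  rw [NN_eq good_zeta hA]
  push_cast
  rfl

lemma sum_Zt (T : ℝ) : ∑ s ∈ Zt T, mz s = (NN riemannZeta 0 T : ℝ) := by
  unfold Zt mz NN
  rw [finsum_mem_eq_finite_toFinset_sum _ (zeta_zeros_finite T)]
  push_cast
  rfl

/-- the pair sum of the tent -/
noncomputable def VV (S : Finset ℂ) (b Λ : ℝ) : ℝ :=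
  ∑ s ∈ S, ∑ s' ∈ S, mz s * mz s' * tent b ((s.im - s'.im) * Λ / (2 * Real.pi))

lemma VV_nonneg (S : Finset ℂ) (b Λ : ℝ) : 0 ≤ VV S b Λ :=
  Finset.sum_nonneg fun s _ => Finset.sum_nonneg fun s' _ =>
    mul_nonneg (mul_nonneg (mz_nonneg s) (mz_nonneg s')) (tent_nonneg _ _)

lemma tent_le (b x : ℝ) (hb : 0 ≤ b) : tent b x ≤ b := by
  unfold tent
  exact max_le hb (by linarith [abs_nonneg x])

/-- scaling up shrinks the tent -/
lemma tent_anti {b y Λ Λ' : ℝ} (h0 : 0 ≤ Λ) (h : Λ ≤ Λ') :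
    tent b (y * Λ' / (2 * Real.pi)) ≤ tent b (y * Λ / (2 * Real.pi)) := by
  have hpi := Real.pi_pos
  unfold tent
  apply max_le_max le_rfl
  have : |y * Λ / (2 * Real.pi)| ≤ |y * Λ' / (2 * Real.pi)| := by
    rw [abs_div, abs_div, abs_mul y Λ, abs_mul y Λ', abs_of_nonneg h0, abs_of_nonneg (h0.trans h)]
    gcongr
  linarith

lemma VV_anti (S : Finset ℂ) (b : ℝ) {Λ Λ' : ℝ} (h0 : 0 ≤ Λ) (h : Λ ≤ Λ') :
    VV S b Λ' ≤ VV S b Λ :=
  Finset.sum_le_sum fun s _ => Finset.sum_le_sum fun s' _ =>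
    mul_le_mul_of_nonneg_left (tent_anti h0 h) (mul_nonneg (mz_nonneg s) (mz_nonneg s'))

/-- a small scaling is absorbed by a slightly smaller tent -/
lemma tent_scale {b y Λ Λ' η : ℝ} (hb : 0 ≤ b) (hη : 0 ≤ η) (h0 : 0 ≤ Λ') (h0' : 0 ≤ Λ)
    (h : Λ' ≤ (1 + η) * Λ) :
    tent (b / (1 + η)) (y * Λ / (2 * Real.pi)) ≤ tent b (y * Λ' / (2 * Real.pi)) := by
  have hpi := Real.pi_pos
  have h1 : |y * Λ' / (2 * Real.pi)| ≤ (1 + η) * |y * Λ / (2 * Real.pi)| := by
    rw [abs_div, abs_div, abs_mul y Λ', abs_mul y Λ, abs_of_nonneg h0, abs_of_nonneg h0']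
    calc |y| * Λ' / |2 * Real.pi| ≤ |y| * ((1 + η) * Λ) / |2 * Real.pi| := by gcongr
      _ = (1 + η) * (|y| * Λ / |2 * Real.pi|) := by ring
  set x := |y * Λ / (2 * Real.pi)| with hx
  have hx0 : 0 ≤ x := abs_nonneg _
  have h1η : 0 < 1 + η := by linarith
  unfold tent
  apply max_le (le_max_left _ _)
  rw [← hx]
  rcases le_total (b / (1 + η)) x with h2 | h2
  · exact (by linarith : b / (1 + η) - x ≤ 0).trans (le_max_left _ _)
  · refine le_trans ?_ (le_max_right _ _)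
    have h3 : b = (1 + η) * (b / (1 + η)) := by field_simp
    nlinarith

lemma VV_scale (S : Finset ℂ) {b Λ Λ' η : ℝ} (hb : 0 ≤ b) (hη : 0 ≤ η) (h0 : 0 ≤ Λ')
    (h0' : 0 ≤ Λ) (h : Λ' ≤ (1 + η) * Λ) : VV S (b / (1 + η)) Λ ≤ VV S b Λ' :=
  Finset.sum_le_sum fun s _ => Finset.sum_le_sum fun s' _ =>
    mul_le_mul_of_nonneg_left (tent_scale hb hη h0 h0' h) (mul_nonneg (mz_nonneg s) (mz_nonneg s'))

lemma split_pairs {A B U : Finset ℂ} (hU : U = A ∪ B) (hd : Disjoint A B) (g : ℂ → ℂ → ℝ)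
    (hg : ∀ s s', g s s' = g s' s) :
    ∑ s ∈ U, ∑ s' ∈ U, g s s' = ∑ s ∈ A, ∑ s' ∈ A, g s s' + ∑ s ∈ B, ∑ s' ∈ B, g s s' +
      2 * ∑ s ∈ A, ∑ s' ∈ B, g s s' := by
  classical
  subst hU
  have e : ∑ s ∈ B, ∑ s' ∈ A, g s s' = ∑ s ∈ A, ∑ s' ∈ B, g s s' := by
    rw [Finset.sum_comm]
    exact Finset.sum_congr rfl fun s _ => Finset.sum_congr rfl fun s' _ => hg _ _
  rw [Finset.sum_union hd]
  simp_rw [Finset.sum_union hd, Finset.sum_add_distrib]
  rw [e]
  ring

/-- the cross pairs -/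
lemma cross_bd {b Λ U : ℝ} (hb : 0 ≤ b) (hΛ : 0 < Λ) (hbΛ : 2 * Real.pi * b ≤ Λ) (hU : 3 ≤ U) :
    0 ≤ ∑ s ∈ Zt U, ∑ s' ∈ Zb U (2 * U),
        mz s * mz s' * tent b ((s.im - s'.im) * Λ / (2 * Real.pi)) ∧
    ∑ s ∈ Zt U, ∑ s' ∈ Zb U (2 * U),
        mz s * mz s' * tent b ((s.im - s'.im) * Λ / (2 * Real.pi)) ≤
      b * (NN riemannZeta (U - 1) (U + 1) : ℝ) ^ 2 := by
  classical
  have hpi := Real.pi_pos
  refine ⟨Finset.sum_nonneg fun s _ => Finset.sum_nonneg fun s' _ =>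
    mul_nonneg (mul_nonneg (mz_nonneg s) (mz_nonneg s')) (tent_nonneg _ _), ?_⟩
  set N := Zb (U - 1) (U + 1) with hN
  have h1 : ∀ A : Finset ℂ, ∑ s ∈ A, (if s ∈ N then mz s else 0) ≤ ∑ s ∈ N, mz s := by
    intro A
    rw [← Finset.sum_filter]
    refine Finset.sum_le_sum_of_subset_of_nonneg ?_ fun s _ _ => mz_nonneg s
    intro s hs
    exact (Finset.mem_filter.1 hs).2
  have h2 : ∀ A : Finset ℂ, 0 ≤ ∑ s ∈ A, (if s ∈ N then mz s else 0) := fun A =>
    Finset.sum_nonneg fun s _ => by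
      split_ifs
      · exact mz_nonneg s
      · exact le_rfl
  have h3 : ∑ s ∈ N, mz s = (NN riemannZeta (U - 1) (U + 1) : ℝ) := sum_Zb (by linarith)
  calc ∑ s ∈ Zt U, ∑ s' ∈ Zb U (2 * U),
        mz s * mz s' * tent b ((s.im - s'.im) * Λ / (2 * Real.pi)) ≤
        ∑ s ∈ Zt U, ∑ s' ∈ Zb U (2 * U), b * ((if s ∈ N then mz s else 0) *
          (if s' ∈ N then mz s' else 0)) := by
        refine Finset.sum_le_sum fun s hs => Finset.sum_le_sum fun s' hs' => ?_
        have m1 := mz_nonneg s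
        have m2 := mz_nonneg s'
        by_cases hd : |s.im - s'.im| ≤ 1
        · rw [mem_Zt] at hs
          rw [mem_Zb (by linarith)] at hs'
          obtain ⟨a1, a2, a3, a4, a5⟩ := hs
          obtain ⟨b1, b2, b3, b4, b5⟩ := hs'
          obtain ⟨d1, d2⟩ := abs_le.1 hd
          have e1 : s ∈ N := by
            rw [hN, mem_Zb (by linarith)]
            exact ⟨a1, a2, by linarith, by linarith, a5⟩
          have e2 : s' ∈ N := by
            rw [hN, mem_Zb (by linarith)]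
            exact ⟨b1, b2, by linarith, by linarith, b5⟩
          rw [if_pos e1, if_pos e2, mul_comm b]
          exact mul_le_mul_of_nonneg_left (tent_le _ _ hb) (mul_nonneg m1 m2)
        · push Not at hd
          rw [tent_zero, mul_zero]
          · refine mul_nonneg hb (mul_nonneg ?_ ?_) <;> split_ifs
            · exact m1
            · exact le_rfl
            · exact m2
            · exact le_rfl
          · rw [abs_div, abs_mul, abs_of_pos hΛ, abs_of_pos (by positivity : 0 < 2 * Real.pi),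
              le_div_iff₀ (by positivity)]
            nlinarith
    _ = b * ((∑ s ∈ Zt U, (if s ∈ N then mz s else 0)) *
          ∑ s ∈ Zb U (2 * U), (if s ∈ N then mz s else 0)) := by
        rw [Finset.sum_mul_sum]
        simp_rw [Finset.mul_sum]
    _ ≤ b * ((∑ s ∈ N, mz s) * ∑ s ∈ N, mz s) := by
        apply mul_le_mul_of_nonneg_left _ hb
        exact mul_le_mul (h1 _) (h1 _) (h2 _) ((h2 ∅).trans (h1 ∅))
    _ = _ := by rw [h3]; ring

lemma step {b Λ U : ℝ} (hb : 0 ≤ b) (hΛ : 0 < Λ) (hbΛ : 2 * Real.pi * b ≤ Λ) (hU : 3 ≤ U) :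
    VV (Zt U) b Λ + VV (Zb U (2 * U)) b Λ ≤ VV (Zt (2 * U)) b Λ ∧
    VV (Zt (2 * U)) b Λ ≤ VV (Zt U) b Λ + VV (Zb U (2 * U)) b Λ +
      2 * (b * (NN riemannZeta (U - 1) (U + 1) : ℝ) ^ 2) := by
  have h1 := split_pairs (Zt_split (V := U) (T := 2 * U) (by linarith) (by linarith))
    (Zt_disj (by linarith)) (fun s s' : ℂ => mz s * mz s' *
      tent b ((s.im - s'.im) * Λ / (2 * Real.pi)))
    (fun s s' => by
      show mz s * mz s' * tent b ((s.im - s'.im) * Λ / (2 * Real.pi)) =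
        mz s' * mz s * tent b ((s'.im - s.im) * Λ / (2 * Real.pi))
      rw [← tent_even b ((s'.im - s.im) * Λ / (2 * Real.pi)), mul_comm (mz s)]
      congr 2
      ring)
  obtain ⟨h2, h3⟩ := cross_bd (b := b) (Λ := Λ) (U := U) hb hΛ hbΛ hU
  unfold VV
  rw [h1]
  constructor
  · linarith
  · linarith

/-- the hypothesis about the dyadic blocks -/
def Blk (C : ℝ) : Prop := ∀ b : ℝ, 0 < b → ∃ U0 : ℝ, 10 ≤ U0 ∧ ∀ U : ℝ, U0 ≤ U →
  |VV (Zb U (2 * U)) b (Real.log U) - PP b * NN riemannZeta U (2 * U)| ≤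
    C * NN riemannZeta U (2 * U)

lemma near_small (b : ℝ) (hb : 0 ≤ b) : ∃ V1 : ℝ, 10 ≤ V1 ∧ ∀ V : ℝ, V1 ≤ V →
    2 * (b * (NN riemannZeta (V - 1) (V + 1) : ℝ) ^ 2) ≤ V := by
  obtain ⟨C2, hC2, hS⟩ := H370.zcount good_zeta
  have ev : ∀ᶠ V : ℝ in atTop, 2 * (b + 1) * C2 ^ 2 * (Real.log V) ^ 2 ≤ V := by
    have h1 := (Real.isLittleO_pow_log_id_atTop (n := 2)).bound
      (show (0 : ℝ) < 1 / (2 * (b + 1) * C2 ^ 2) by positivity)
    filter_upwards [h1, eventually_ge_atTop (1 : ℝ)] with V hV hV1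
    rw [Real.norm_eq_abs, Real.norm_eq_abs, id, abs_of_pos (by linarith : (0 : ℝ) < V)] at hV
    have h2 := (le_abs_self _).trans hV
    rw [one_div, ← div_eq_inv_mul, le_div_iff₀ (by positivity)] at h2
    linarith
  obtain ⟨V2, hV2⟩ := ev.exists_forall_of_atTop
  refine ⟨max 10 V2, le_max_left _ _, fun V hV => ?_⟩
  have hV10 : 10 ≤ V := (le_max_left _ _).trans hV
  have h1 := hV2 V ((le_max_right _ _).trans hV)
  have h2 := hS V (by linarith)
  have h0 : (0 : ℝ) ≤ NN riemannZeta (V - 1) (V + 1) := Nat.cast_nonneg _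
  have h6 := pow_le_pow_left₀ h0 h2 2
  have h7 : b * (NN riemannZeta (V - 1) (V + 1) : ℝ) ^ 2 ≤ (b + 1) * (C2 * Real.log V) ^ 2 :=
    mul_le_mul (by linarith) h6 (by positivity) (by linarith)
  have h8 : 2 * ((b + 1) * (C2 * Real.log V) ^ 2) = 2 * (b + 1) * C2 ^ 2 * (Real.log V) ^ 2 := by
    ring
  linarith

lemma NN_step {U : ℝ} (hU : 1 ≤ U) : (NN riemannZeta 0 (2 * U) : ℝ) =
    NN riemannZeta 0 U + NN riemannZeta U (2 * U) := by
  have := Pool.Agent.W54.TCF.NN_zero_add (A := U) (X := 2 * U) hU (by linarith)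
  rw [this]
  push_cast
  ring

/-- the upper bound -/
lemma upper {C : ℝ} (hC : 0 ≤ C) (hblk : Blk C) {b : ℝ} (hb : 0 < b) :
    ∃ B0 V0 : ℝ, 10 ≤ V0 ∧ 0 ≤ B0 ∧ ∀ T : ℝ, V0 ≤ T → ∀ Λ : ℝ, Real.log T ≤ Λ →
      VV (Zt T) b Λ ≤ B0 + (PP b + C) * NN riemannZeta 0 T + T := by
  obtain ⟨U0, hU0, hB⟩ := hblk b hb
  obtain ⟨V1, hV1, hN⟩ := near_small b hb.le
  have hpi := Real.pi_pos
  obtain ⟨V2, hV2⟩ := (Real.tendsto_log_atTop.eventually_ge_atTop
    (2 * Real.pi * b)).exists_forall_of_atTop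
  obtain ⟨V0, hV0⟩ : ∃ V0, V0 = max U0 (max V1 V2) := ⟨_, rfl⟩
  have hV0U : U0 ≤ V0 := by rw [hV0]; exact le_max_left _ _
  have hV0V1 : V1 ≤ V0 := by rw [hV0]; exact (le_max_left _ _).trans (le_max_right _ _)
  have hV0V2 : V2 ≤ V0 := by rw [hV0]; exact (le_max_right _ _).trans (le_max_right _ _)
  have hV010 : 10 ≤ V0 := hU0.trans hV0U
  have hPP := PP_nonneg hb
  set B0 : ℝ := b * (∑ s ∈ Zt (2 * V0), mz s) ^ 2 with hB0
  have hB00 : 0 ≤ B0 := by positivity
  have hsmall : ∀ T : ℝ, T ≤ 2 * V0 → ∀ Λ : ℝ, VV (Zt T) b Λ ≤ B0 := by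
    intro T hT Λ
    have h1 : VV (Zt T) b Λ ≤ b * (∑ s ∈ Zt T, mz s) ^ 2 := by
      unfold VV
      rw [sq, Finset.sum_mul_sum, Finset.mul_sum]
      refine Finset.sum_le_sum fun s _ => ?_
      rw [Finset.mul_sum]
      refine Finset.sum_le_sum fun s' _ => ?_
      rw [mul_comm b]
      exact mul_le_mul_of_nonneg_left (tent_le _ _ hb.le) (mul_nonneg (mz_nonneg _) (mz_nonneg _))
    refine h1.trans (mul_le_mul_of_nonneg_left ?_ hb.le)
    refine pow_le_pow_left₀ (Finset.sum_nonneg fun s _ => mz_nonneg s) ?_ 2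
    refine Finset.sum_le_sum_of_subset_of_nonneg (fun s hs => ?_) fun s _ _ => mz_nonneg s
    rw [mem_Zt] at hs ⊢
    exact ⟨hs.1, hs.2.1, hs.2.2.1, hs.2.2.2.1.trans hT, hs.2.2.2.2⟩
  have hmain : ∀ n : ℕ, ∀ T : ℝ, V0 ≤ T → T ≤ 2 ^ n * (2 * V0) → ∀ Λ : ℝ, Real.log T ≤ Λ →
      VV (Zt T) b Λ ≤ B0 + (PP b + C) * NN riemannZeta 0 T + T := by
    intro n
    have hbase : ∀ T : ℝ, V0 ≤ T → T ≤ 2 * V0 → ∀ Λ : ℝ,
        VV (Zt T) b Λ ≤ B0 + (PP b + C) * NN riemannZeta 0 T + T := by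
      intro T hT hT2 Λ
      have h1 := hsmall T hT2 Λ
      have h2 : (0 : ℝ) ≤ (PP b + C) * NN riemannZeta 0 T :=
        mul_nonneg (by linarith) (Nat.cast_nonneg _)
      linarith
    induction n with
    | zero =>
      intro T hT hT2 Λ _
      rw [pow_zero, one_mul] at hT2
      exact hbase T hT hT2 Λ
    | succ n ih =>
      intro T hT hT2 Λ hΛ
      rcases le_or_gt T (2 * V0) with h | h
      · exact hbase T hT h Λ
      · set V := T / 2 with hV
        have hVV : V0 ≤ V := by linarith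
        have hTV : T = 2 * V := by rw [hV]; ring
        have hlog : Real.log V ≤ Real.log T := Real.log_le_log (by linarith) (by linarith)
        have hlV0 : 0 ≤ Real.log V := Real.log_nonneg (by linarith)
        have h1 := ih V hVV (by
          rw [pow_succ] at hT2
          linarith) Λ (hlog.trans hΛ)
        have hbl := hV2 V (hV0V2.trans hVV)
        have hΛ0 : 0 < Λ := by
          have : 0 < Real.log T := Real.log_pos (by linarith)
          linarith
        have h2 := (step (b := b) (Λ := Λ) (U := V) hb.le hΛ0 (by linarith) (by linarith)).2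
        have h3 := VV_anti (Zb V (2 * V)) b hlV0 (hlog.trans hΛ)
        have h4 := (abs_le.1 (hB V (hV0U.trans hVV))).2
        have h5 := hN V (hV0V1.trans hVV)
        have h6 := NN_step (U := V) (by linarith)
        rw [hTV, h6]
        rw [mul_add]
        linarith
  refine ⟨B0, V0, hV010, hB00, fun T hT Λ hΛ => ?_⟩
  obtain ⟨n, hn⟩ := pow_unbounded_of_one_lt (T / (2 * V0)) (one_lt_two)
  refine hmain n T hT ?_ Λ hΛ
  rw [div_lt_iff₀ (by linarith)] at hn
  exact hn.le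

/-- the lower bound by finitely many blocks -/
lemma lower {C : ℝ} (hblk : Blk C) {b η : ℝ} (hb : 0 < b) (hη : 0 ≤ η) :
    ∃ V0 : ℝ, 10 ≤ V0 ∧ ∀ n : ℕ, ∀ T : ℝ, 2 ^ n * V0 ≤ T → ∀ Λ : ℝ, Real.log T ≤ Λ →
      Λ ≤ (1 + η) * Real.log (T / 2 ^ n) →
      (PP (b / (1 + η)) - C) * (NN riemannZeta 0 T - NN riemannZeta 0 (T / 2 ^ n)) ≤
        VV (Zt T) b Λ := by
  have hb' : 0 < b / (1 + η) := by positivity
  obtain ⟨U0, hU0, hB⟩ := hblk _ hb'
  have hpi := Real.pi_pos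
  obtain ⟨V2, hV2⟩ := (Real.tendsto_log_atTop.eventually_ge_atTop
    (2 * Real.pi * b)).exists_forall_of_atTop
  refine ⟨max U0 V2, hU0.trans (le_max_left _ _), fun n => ?_⟩
  have hV010 : 10 ≤ max U0 V2 := hU0.trans (le_max_left _ _)
  induction n with
  | zero =>
    intro T _ Λ _ _
    simp only [pow_zero, div_one, sub_self, mul_zero]
    exact VV_nonneg _ _ _
  | succ n ih =>
    intro T hT Λ hΛ hΛ2
    set V := T / 2 with hV
    have hTV : T = 2 * V := by rw [hV]; ring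
    have h1n : (1 : ℝ) ≤ 2 ^ n := one_le_pow₀ (by norm_num)
    have hVn : 2 ^ n * max U0 V2 ≤ V := by
      rw [pow_succ] at hT
      rw [hV]
      linarith
    have hVV : max U0 V2 ≤ V := by nlinarith
    have hlog : Real.log V ≤ Real.log T := Real.log_le_log (by linarith) (by linarith)
    have hlV0 : 0 ≤ Real.log V := Real.log_nonneg (by linarith)
    have e1 : T / 2 ^ (n + 1) = V / 2 ^ n := by rw [hV, pow_succ]; field_simp
    rw [e1] at hΛ2 ⊢
    have hlow : Real.log (V / 2 ^ n) ≤ Real.log V := by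
      have hV0 : 0 < V := by linarith
      apply Real.log_le_log (by positivity)
      apply div_le_self (by linarith) h1n
    have h1 := ih V hVn Λ (hlog.trans hΛ) hΛ2
    have hΛ0 : 0 < Λ := by
      have : 0 < Real.log T := Real.log_pos (by linarith)
      linarith
    have hbl := hV2 V ((le_max_right _ _).trans hVV)
    have h2 := (step (b := b) (Λ := Λ) (U := V) hb.le hΛ0 (by linarith) (by linarith)).1
    have h3 := VV_scale (Zb V (2 * V)) (b := b) (Λ := Real.log V) (Λ' := Λ) hb.le hη hΛ0.le hlV0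
      (hΛ2.trans (by gcongr))
    have h4 := (abs_le.1 (hB V ((le_max_left _ _).trans hVV))).1
    have h6 := NN_step (U := V) (by linarith)
    rw [hTV, h6]
    linarith

/-- the pair sum of all the zeros -/
theorem full {C : ℝ} (hC : 0 ≤ C) (hblk : Blk C) {b : ℝ} (hb : 0 < b) :
    ∃ T0 : ℝ, 10 ≤ T0 ∧ ∀ T : ℝ, T0 ≤ T →
      |VV (Zt T) b (Real.log T) - PP b * (T * Real.log T / (2 * Real.pi))| ≤
        (2 * C + 5) * (T * Real.log T / (2 * Real.pi)) := by
  have hPP := PP_nonneg hb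
  have hpi := Real.pi_pos
  obtain ⟨B0, V0, hV0, hB0, hup⟩ := upper hC hblk hb
  set η : ℝ := 1 / (b * (1 + 2 * b) + 1) with hη
  have hη0 : 0 < η := by positivity
  obtain ⟨V3, hV3, hlow⟩ := lower hblk hb hη0.le
  set b' := b / (1 + η) with hb'
  have hb'0 : 0 < b' := by positivity
  have hb'b : b' ≤ b := div_le_self hb.le (by linarith)
  have hcl : PP b - 1 ≤ PP b' := by
    have h1 := (PP_close hb'0 hb'b).1
    have h2 : b - b' ≤ η * b := by
      rw [hb']
      have : b - b / (1 + η) = η * b / (1 + η) := by field_simp; ring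
      rw [this]
      exact div_le_self (mul_nonneg hη0.le hb.le) (by linarith)
    have h3 : (b - b') * (1 + 2 * b) ≤ 1 := by
      calc (b - b') * (1 + 2 * b) ≤ η * b * (1 + 2 * b) := by gcongr
        _ = (b * (1 + 2 * b)) / (b * (1 + 2 * b) + 1) := by rw [hη]; ring
        _ ≤ 1 := by rw [div_le_one (by positivity)]; linarith
    linarith
  obtain ⟨n, hn⟩ := pow_unbounded_of_one_lt (8 * (PP b + 1)) (one_lt_two)
  -- choose the asymptotic precision
  obtain ⟨ε, hε, hε1, hε2⟩ : ∃ ε : ℝ, 0 < ε ∧ ε ≤ 1 / 2 ∧ ε * (PP b + C + 1) ≤ 1 / 2 := by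
    have h0 : 0 < PP b + C + 1 := by linarith
    refine ⟨1 / (2 * (PP b + C + 1)), by positivity, ?_, ?_⟩
    · rw [div_le_div_iff₀ (by positivity) (by norm_num)]
      linarith
    · rw [div_mul_eq_mul_div, one_mul, div_le_div_iff₀ (by positivity) (by norm_num)]
      linarith
  obtain ⟨T1, hT1, hN⟩ := Pool.Agent.W54.TCF.NT_asymp' ε hε
  have ev1 : ∀ᶠ T : ℝ in atTop, 4 * Real.pi * (B0 + 1) ≤ Real.log T :=
    Real.tendsto_log_atTop.eventually_ge_atTop _
  have ev2 : ∀ᶠ T : ℝ in atTop, (1 + η) * (n * Real.log 2) / η ≤ Real.log T :=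
    Real.tendsto_log_atTop.eventually_ge_atTop _
  obtain ⟨T2, hT2⟩ := (ev1.and ev2).exists_forall_of_atTop
  refine ⟨max (max V0 T1) (max (2 ^ n * (V3 + T1)) T2),
    (hV0.trans (le_max_left _ _)).trans (le_max_left _ _), fun T hT => ?_⟩
  have hTV0 : V0 ≤ T := ((le_max_left _ _).trans (le_max_left _ _)).trans hT
  have hTT1 : T1 ≤ T := ((le_max_right _ _).trans (le_max_left _ _)).trans hT
  have hTV3 : 2 ^ n * (V3 + T1) ≤ T := ((le_max_left _ _).trans (le_max_right _ _)).trans hT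
  have hTT2 : T2 ≤ T := ((le_max_right _ _).trans (le_max_right _ _)).trans hT
  obtain ⟨e1, e2⟩ := hT2 T hTT2
  have h2n : (0 : ℝ) < 2 ^ n := by positivity
  have hT0 : 0 < T := by linarith
  have hL : 0 < Real.log T := Real.log_pos (by linarith)
  set X : ℝ := T * Real.log T / (2 * Real.pi) with hX
  have hX0 : 0 < X := by positivity
  have hXe : T / (2 * Real.pi) * Real.log T = X := by rw [hX]; ring
  obtain ⟨n1, n2⟩ := hN T hTT1
  rw [hXe] at n1 n2
  set N0 : ℝ := (NN riemannZeta 0 T : ℝ) with hN0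
  have hN00 : 0 ≤ N0 := Nat.cast_nonneg _
  have hεX : ε * X ≤ 1 / 2 * X := mul_le_mul_of_nonneg_right hε1 hX0.le
  have hN0X : N0 ≤ 3 / 2 * X := by linarith
  have hBT : B0 + T ≤ X := by
    have h1 : X = T * (Real.log T / (2 * Real.pi)) := by rw [hX]; ring
    have h2 : 2 * (B0 + 1) ≤ Real.log T / (2 * Real.pi) := by
      rw [le_div_iff₀ (by positivity)]
      linarith
    have h3 : T * (2 * (B0 + 1)) ≤ X := by rw [h1]; gcongr
    have h4 : B0 ≤ T * B0 := by nlinarith only [hB0, hV0, hTV0]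
    nlinarith only [h3, h4, hT0, hB0]
  rw [abs_le]
  constructor
  · -- lower bound
    have hTn : T1 ≤ T / 2 ^ n := by
      rw [le_div_iff₀ h2n]
      nlinarith only [hTV3, h2n, hV3]
    have hlogn : Real.log (T / 2 ^ n) = Real.log T - n * Real.log 2 := by
      rw [Real.log_div hT0.ne' h2n.ne', Real.log_pow]
    have h1 : Real.log T ≤ (1 + η) * Real.log (T / 2 ^ n) := by
      rw [hlogn]
      rw [div_le_iff₀ hη0] at e2
      linarith
    have h2 := hlow n T (by nlinarith only [hTV3, h2n, hT1]) (Real.log T) le_rfl h1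
    obtain ⟨m1, m2⟩ := hN (T / 2 ^ n) hTn
    set N1 : ℝ := (NN riemannZeta 0 (T / 2 ^ n) : ℝ) with hN1
    have hN10 : 0 ≤ N1 := Nat.cast_nonneg _
    have hN1X : N1 * 2 ^ n ≤ 3 / 2 * X := by
      have h3 : Real.log (T / 2 ^ n) ≤ Real.log T := by
        rw [hlogn]
        have := Real.log_nonneg (one_le_two (α := ℝ))
        have : (0 : ℝ) ≤ n * Real.log 2 := by positivity
        linarith
      have h3' : 0 ≤ Real.log (T / 2 ^ n) := Real.log_nonneg (by linarith)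
      have h4 : N1 ≤ 3 / 2 * (T / 2 ^ n / (2 * Real.pi) * Real.log (T / 2 ^ n)) := by
        refine m2.trans ?_
        apply mul_le_mul_of_nonneg_right (by linarith)
        positivity
      calc N1 * 2 ^ n ≤ 3 / 2 * (T / 2 ^ n / (2 * Real.pi) * Real.log (T / 2 ^ n)) * 2 ^ n := by
            gcongr
        _ = 3 / 2 * (T / (2 * Real.pi) * Real.log (T / 2 ^ n)) := by field_simp
        _ ≤ 3 / 2 * (T / (2 * Real.pi) * Real.log T) := by gcongr
        _ = _ := by rw [hXe]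
    have hPN1 : PP b * N1 ≤ X := by
      have : N1 * (8 * (PP b + 1)) ≤ N1 * 2 ^ n := mul_le_mul_of_nonneg_left hn.le hN10
      linarith
    have hVV0 := VV_nonneg (Zt T) b (Real.log T)
    have hCX : 0 ≤ C * X := by positivity
    rcases le_total (PP b - 1 - C) 0 with hneg | hpos
    · have : (PP b - 1 - C) * X ≤ 0 := mul_nonpos_of_nonpos_of_nonneg hneg hX0.le
      linarith
    · have h5 : (PP b - 1 - C) * (N0 - N1) ≤ VV (Zt T) b (Real.log T) := by
        refine le_trans ?_ h2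
        apply mul_le_mul_of_nonneg_right (by linarith)
        have : N1 ≤ N0 := by
          rw [hN1, hN0]
          have h6 : NN riemannZeta 0 (T / 2 ^ n) ≤ NN riemannZeta 0 T := by
            have h7 : T / 2 ^ n ≤ T := div_le_self hT0.le (one_le_pow₀ (by norm_num))
            have := Pool.Agent.W54.TCF.NN_zero_add (A := T / 2 ^ n) (X := T) (by linarith) h7
            omega
          exact_mod_cast h6
        linarith
      have h8 : (PP b - 1 - C) * N1 ≤ PP b * N1 := mul_le_mul_of_nonneg_right (by linarith) hN10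
      have h9 : (PP b - 1 - C) * ((1 - ε) * X) ≤ (PP b - 1 - C) * N0 :=
        mul_le_mul_of_nonneg_left n1 hpos
      have h10 : (PP b - 1 - C) * ε * X ≤ 1 / 2 * X := by
        apply mul_le_mul_of_nonneg_right _ hX0.le
        have : (PP b - 1 - C) * ε ≤ (PP b + C + 1) * ε := by
          apply mul_le_mul_of_nonneg_right _ hε.le
          linarith
        linarith
      linarith
  · have h1 := hup T hTV0 (Real.log T) le_rfl
    have h2 : (PP b + C) * N0 ≤ (PP b + C) * ((1 + ε) * X) := by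
      apply mul_le_mul_of_nonneg_left n2 (by linarith)
    have hCX : 0 ≤ C * X := by positivity
    have h10 : (PP b + C) * ε * X ≤ 1 / 2 * X := by
      apply mul_le_mul_of_nonneg_right _ hX0.le
      linarith
    linarith

end Pool.Agent.NH11.PV
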