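import Pool.Agent.Y750.OM.Main1
import Pool.Agent.Y750.OM.Cnt
import Pool.Agent.NH11.PV.Prim
import Pool.Agent.NH11.PV.Cells
import Pool.Agent.NH11.PV.Full

set_option autoImplicit false

/-! # The pair sum of the tent over a dyadic block -/

namespace Pool.Agent.NH11.PV

open Filter Topology Set MeasureTheory
open H370 (Zf mult mem_Zf good_zeta zset NN NN_eq zeta_zeros_finite)
open Pool.Agent.Y750.OM (rh PO pair_ord cntmom NO NO_nonneg rh_bound)

/-- close pairs are few -/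
theorem close_pairs : ∃ C T0 : ℝ, 0 < C ∧ 10 ≤ T0 ∧ ∀ T : ℝ, T0 ≤ T →
    ∑ s ∈ Zb T (2 * T), ∑ s' ∈ Zb T (2 * T), mz s * mz s' *
      (if |s.im * Real.log T / (2 * Real.pi) - s'.im * Real.log T / (2 * Real.pi)| ≤ 1
        then 1 else 0) ≤ C * NN riemannZeta T (2 * T) := by
  classical
  obtain ⟨C, T0, hC, hT0, h⟩ := cntmom 2 (by norm_num)
  obtain ⟨Cn, Tn, hCn, hTn, hn⟩ := H370.nn_asymp good_zeta
  have hpi := Real.pi_gt_three
  have hpi4 := Real.pi_lt_d2
  have ev : ∀ᶠ T : ℝ in atTop, 8 * Cn ≤ Real.log T / Real.pi :=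
    (Real.tendsto_log_atTop.atTop_div_const Real.pi_pos).eventually_ge_atTop _
  obtain ⟨T1, hT1⟩ := ev.exists_forall_of_atTop
  refine ⟨15 * (C * 9), max T0 (max Tn T1), by positivity, hT0.trans (le_max_left _ _),
    fun T hT => ?_⟩
  have hTT0 : T0 ≤ T := (le_max_left _ _).trans hT
  have hTTn : Tn ≤ T := ((le_max_left _ _).trans (le_max_right _ _)).trans hT
  have e1 := hT1 T (((le_max_right _ _).trans (le_max_right _ _)).trans hT)
  have h1 := h T hTT0
  set L := Real.log T with hL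
  have hL0 : 0 < L := Real.log_pos (by linarith)
  have hT0' : 0 < T := by linarith
  have h2 := close_of_moment (Zb T (2 * T)) mz (fun s => s.im) (fun s _ => mz_nonneg s)
    (w := 1 / L) (B := C * T) (by positivity) (by positivity) h1
  have h3 := close_cells (Zb T (2 * T)) mz (fun s => s.im * L) (fun s _ => mz_nonneg s)
  have e2 : ∀ s s' : ℂ, (|s.im * L / (2 * Real.pi) - s'.im * L / (2 * Real.pi)| ≤ 1) ↔
      |s.im * L - s'.im * L| ≤ 2 * Real.pi := by
    intro s s'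
    rw [← sub_div, abs_div, abs_of_pos (by positivity : 0 < 2 * Real.pi), div_le_one (by positivity)]
  have e3 : ∀ s s' : ℂ, (|s.im * L - s'.im * L| ≤ 1) ↔ |s.im - s'.im| ≤ 1 / L := by
    intro s s'
    rw [← sub_mul, abs_mul, abs_of_pos hL0, le_div_iff₀ hL0]
  simp_rw [e2]
  refine h3.trans ?_
  simp_rw [e3]
  have h4 : ∑ i ∈ Zb T (2 * T), ∑ k ∈ Zb T (2 * T), mz i * mz k *
      (if |i.im - k.im| ≤ 1 / L then 1 else 0) ≤ C * (T * L) := by
    rw [div_mul_eq_mul_div, one_mul, div_le_iff₀ hL0] at h2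
    linarith
  have h5 : T * L ≤ 9 * NN riemannZeta T (2 * T) := by
    have h6 := (abs_le.1 (hn T hTTn T (2 * T) le_rfl (by linarith) (by linarith) le_rfl)).1
    have h7 : T * L / (2 * Real.pi) = T / 2 * (L / Real.pi) := by field_simp
    have h8 : Cn * T ≤ T / 8 * (L / Real.pi) := by nlinarith
    have h9 : T * (L / Real.pi) * Real.pi = T * L := by field_simp
    have h10 : 3 / 8 * (T * (L / Real.pi)) ≤ NN riemannZeta T (2 * T) := by linarith
    have h11 : 0 ≤ T * (L / Real.pi) := by positivity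
    have h12 : T * (L / Real.pi) * Real.pi ≤ T * (L / Real.pi) * 3.15 :=
      mul_le_mul_of_nonneg_left hpi4.le h11
    linarith
  calc 15 * ∑ i ∈ Zb T (2 * T), ∑ k ∈ Zb T (2 * T), mz i * mz k *
      (if |i.im - k.im| ≤ 1 / L then 1 else 0) ≤ 15 * (C * (T * L)) := by gcongr
    _ ≤ 15 * (C * (9 * NN riemannZeta T (2 * T))) := by gcongr
    _ = _ := by ring

/-- the transforms agree -/
lemma ct_rh (r : ℝ → ℝ) (y : ℝ) : ct r (y / (2 * Real.pi)) = rh r y := by
  unfold ct rh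
  congr 1
  funext α
  have : 2 * Real.pi * α * (y / (2 * Real.pi)) = α * y := by
    have := Real.pi_pos
    field_simp
  rw [this]

lemma supp_cs {f : ℝ → ℝ} {δ : ℝ} (hf : Continuous f) (hs : ∀ α, δ < |α| → f α = 0) :
    Integrable f := by
  apply hf.integrable_of_hasCompactSupport
  apply HasCompactSupport.intro (isCompact_Icc (a := -δ) (b := δ))
  intro x hx
  apply hs
  by_contra hcon
  push Not at hcon
  exact hx (abs_le.1 hcon)

/-- one piece -/
lemma piece {C θ : ℝ} (hC : 0 < C) (hθ : 0 < θ)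
    (H : ∀ δ : ℝ, 0 < δ → δ ≤ 1 / 2 → ∀ (r : ℝ → ℝ) (K : ℝ), (∀ x y, |r x - r y| ≤ K * |x - y|) →
      (∀ α, δ < |α| → r α = 0) → ∀ Cf0 : ℝ, (∀ x, |rh r x| * (1 + x ^ 2) ≤ Cf0) →
      ∀ R : ℝ, (∀ α, |r α| ≤ R) → ∀ ε : ℝ, 0 < ε → ∃ T0 : ℝ, 10 ≤ T0 ∧ ∀ T : ℝ, T0 ≤ T →
      |PO (rh r) T (2 * T) (Real.log T) - NN riemannZeta T (2 * T) * (r 0 + ∫ α : ℝ, |α| * r α)| ≤
        (C * R * δ ^ 3 * (NO T (2 * T) / NN riemannZeta T (2 * T)) ^ θ + ε) *
          NN riemannZeta T (2 * T))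
    {r : ℝ → ℝ} (hr : ContDiff ℝ 2 r) {i : ℕ} (hs : ∀ α, dl i < |α| → r α = 0) {R : ℝ}
    (hR : ∀ α, |r α| ≤ R) {ε : ℝ} (hε : 0 < ε) : ∃ T0 : ℝ, 10 ≤ T0 ∧ ∀ T : ℝ, T0 ≤ T →
      |PO (rh r) T (2 * T) (Real.log T) - NN riemannZeta T (2 * T) * (r 0 + ∫ α : ℝ, |α| * r α)| ≤
        (C * R * dl i ^ 3 + ε) * NN riemannZeta T (2 * T) := by
  obtain ⟨K, hK⟩ := lip_of_cd (hr.of_le (by norm_num)) hs
  obtain ⟨Cf, -, hCf⟩ := rh_bound hr (dl_pos i).le hs
  obtain ⟨T0, hT0, h⟩ := H (dl i) (dl_pos i) (dl_le i) r K hK hs Cf hCf R hR ε hε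
  have hR0 : 0 ≤ R := (abs_nonneg _).trans (hR 0)
  refine ⟨T0, hT0, fun T hT => (h T hT).trans ?_⟩
  have h1 : (0 : ℝ) ≤ NN riemannZeta T (2 * T) := Nat.cast_nonneg _
  apply mul_le_mul_of_nonneg_right _ h1
  have hT1 : 1 ≤ T := by linarith
  have h2 : NO T (2 * T) ≤ NN riemannZeta T (2 * T) := by
    rw [NN_eq good_zeta hT1]
    push_cast
    unfold NO
    exact Finset.sum_le_sum_of_subset_of_nonneg (Finset.filter_subset _ _)
      fun s _ _ => Nat.cast_nonneg _
  have h3 : (NO T (2 * T) / NN riemannZeta T (2 * T)) ^ θ ≤ 1 := by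
    apply Real.rpow_le_one (div_nonneg (NO_nonneg _ _) h1) _ hθ.le
    exact div_le_one_of_le₀ h2 h1
  have h4 : 0 ≤ C * R * dl i ^ 3 := by
    have := dl_pos i
    positivity
  nlinarith

lemma int_cos {f : ℝ → ℝ} {δ : ℝ} (hf : Continuous f) (hs : ∀ α, δ < |α| → f α = 0) (y : ℝ) :
    Integrable (fun α => f α * Real.cos (α * y)) :=
  supp_cs (δ := δ) (by fun_prop) fun α hα => by rw [hs α hα, zero_mul]

lemma int_abs {f : ℝ → ℝ} {δ : ℝ} (hf : Continuous f) (hs : ∀ α, δ < |α| → f α = 0) :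
    Integrable (fun α => |α| * f α) :=
  supp_cs (δ := δ) (by fun_prop) fun α hα => by rw [hs α hα, mul_zero]

lemma pc_cont (b : ℝ) (i : ℕ) : Continuous (pc b i) := (pc_contDiff b i (n := 0)).continuous

lemma lst_cont (b : ℝ) (i : ℕ) : Continuous (lst b i) := (lst_contDiff b i (n := 0)).continuous

lemma rh_sum (b : ℝ) (I : ℕ) (y : ℝ) : rh (fun α => jj α * KK b α) y =
    ∑ i ∈ Finset.range I, rh (pc b i) y + rh (lst b I) y := by
  unfold rh
  have h1 : ∀ i ∈ Finset.range I, Integrable (fun α => pc b i α * Real.cos (α * y)) :=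
    fun i _ => int_cos (pc_cont b i) (fun α hα => pc_zero hα) y
  have h2 : Integrable (fun α => lst b I α * Real.cos (α * y)) :=
    int_cos (lst_cont b I) (fun α hα => lst_zero hα) y
  have e : ∀ α : ℝ, jj α * KK b α * Real.cos (α * y) =
      ∑ i ∈ Finset.range I, pc b i α * Real.cos (α * y) + lst b I α * Real.cos (α * y) := by
    intro α
    rw [sum_pc b I α, add_mul, Finset.sum_mul]
  simp_rw [e]
  rw [integral_add (integrable_finset_sum _ h1) h2, integral_finset_sum _ h1]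

lemma main_sum (b : ℝ) (I : ℕ) : b ^ 2 + ∫ α : ℝ, |α| * (jj α * KK b α) =
    ∑ i ∈ Finset.range I, (pc b i 0 + ∫ α : ℝ, |α| * pc b i α) +
      (lst b I 0 + ∫ α : ℝ, |α| * lst b I α) := by
  have h1 : ∀ i ∈ Finset.range I, Integrable (fun α => |α| * pc b i α) :=
    fun i _ => int_abs (pc_cont b i) (fun α hα => pc_zero hα)
  have h2 : Integrable (fun α => |α| * lst b I α) :=
    int_abs (lst_cont b I) (fun α hα => lst_zero hα)
  have e : ∀ α : ℝ, |α| * (jj α * KK b α) =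
      ∑ i ∈ Finset.range I, |α| * pc b i α + |α| * lst b I α := by
    intro α
    rw [sum_pc b I α, mul_add, Finset.mul_sum]
  simp_rw [e]
  rw [integral_add (integrable_finset_sum _ h1) h2, integral_finset_sum _ h1,
    Finset.sum_add_distrib]
  have e0 : b ^ 2 = ∑ i ∈ Finset.range I, pc b i 0 + lst b I 0 := by
    rw [← sum_pc b I 0, jj_one (by norm_num)]
    unfold KK
    simp
  rw [e0]
  ring

lemma PO_add (f g : ℝ → ℝ) (A B L : ℝ) :
    PO (fun y => f y + g y) A B L = PO f A B L + PO g A B L := by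
  unfold PO
  rw [← Finset.sum_add_distrib]
  refine Finset.sum_congr rfl fun s _ => ?_
  rw [← Finset.sum_add_distrib]
  refine Finset.sum_congr rfl fun s' _ => ?_
  ring

lemma PO_sum (I : ℕ) (f : ℕ → ℝ → ℝ) (A B L : ℝ) :
    PO (fun y => ∑ i ∈ Finset.range I, f i y) A B L = ∑ i ∈ Finset.range I, PO (f i) A B L := by
  induction I with
  | zero => simp [PO]
  | succ I ih =>
    simp_rw [Finset.sum_range_succ]
    rw [PO_add, ih]

/-- the block theorem -/
theorem blk : ∃ C : ℝ, 0 ≤ C ∧ Blk C := by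
  classical
  obtain ⟨C1, θ, hC1, hθ, H⟩ := pair_ord (κ0 := 1 / 2) (by norm_num) (by norm_num)
  obtain ⟨C2, T2, hC2, hT2, hclose⟩ := close_pairs
  refine ⟨3 * C1 + 4 + 3 * C2, by positivity, fun b hb => ?_⟩
  obtain ⟨I, hI⟩ := pow_unbounded_of_one_lt (b ^ 2) (show (1 : ℝ) < 8 by norm_num)
  set ε : ℝ := 1 / (I + 1) with hε
  have hε0 : 0 < ε := by positivity
  have hp : ∀ i : ℕ, ∀ᶠ T : ℝ in atTop,
      |PO (rh (pc b i)) T (2 * T) (Real.log T) -
        NN riemannZeta T (2 * T) * (pc b i 0 + ∫ α : ℝ, |α| * pc b i α)| ≤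
        (C1 * (8 * 4 ^ i) * dl i ^ 3 + ε) * NN riemannZeta T (2 * T) := by
    intro i
    obtain ⟨T0, -, h⟩ := piece hC1 hθ H (pc_contDiff b i (n := 2)) (fun α hα => pc_zero hα)
      (pc_bound hb i) hε0
    exact eventually_atTop.2 ⟨T0, h⟩
  have hl : ∀ᶠ T : ℝ in atTop,
      |PO (rh (lst b I)) T (2 * T) (Real.log T) -
        NN riemannZeta T (2 * T) * (lst b I 0 + ∫ α : ℝ, |α| * lst b I α)| ≤
        (C1 * b ^ 2 * dl I ^ 3 + ε) * NN riemannZeta T (2 * T) := by
    obtain ⟨T0, -, h⟩ := piece hC1 hθ H (lst_contDiff b I (n := 2)) (fun α hα => lst_zero hα)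
      (lst_bound b I) hε0
    exact eventually_atTop.2 ⟨T0, h⟩
  have hall := (Filter.eventually_all_finset (Finset.range I)).2 (fun i _ => hp i)
  obtain ⟨T3, hT3⟩ := (hall.and hl).exists_forall_of_atTop
  refine ⟨max T2 T3, hT2.trans (le_max_left _ _), fun T hT => ?_⟩
  have hc := hclose T ((le_max_left _ _).trans hT)
  obtain ⟨g1, g2⟩ := hT3 T ((le_max_right _ _).trans hT)
  have hT10 : 10 ≤ T := (hT2.trans (le_max_left _ _)).trans hT
  set L := Real.log T with hL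
  set N : ℝ := (NN riemannZeta T (2 * T) : ℝ) with hN
  have hN0 : 0 ≤ N := Nat.cast_nonneg _
  have hj : Continuous jj := (jj_contDiff (n := 0)).continuous
  obtain ⟨s1, s2⟩ := sandwich (Zb T (2 * T)) mz (fun s => s.im * L / (2 * Real.pi))
    (fun s _ => mz_nonneg s) hb hj jj_nonneg jj_le_one (fun α hα => jj_one hα)
  have ex : ∀ s s' : ℂ, s.im * L / (2 * Real.pi) - s'.im * L / (2 * Real.pi) =
      (s.im - s'.im) * L / (2 * Real.pi) := fun s s' => by ring
  simp only [ex] at s1 s2 hc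
  have eV : ∑ s ∈ Zb T (2 * T), ∑ s' ∈ Zb T (2 * T), mz s * mz s' *
      tent b ((s.im - s'.im) * L / (2 * Real.pi)) = VV (Zb T (2 * T)) b L := rfl
  have eP : ∑ s ∈ Zb T (2 * T), ∑ s' ∈ Zb T (2 * T), mz s * mz s' *
      ct (fun α => jj α * KK b α) ((s.im - s'.im) * L / (2 * Real.pi)) =
      PO (rh (fun α => jj α * KK b α)) T (2 * T) L := by
    simp_rw [ct_rh]
    rfl
  rw [eV, eP] at s1 s2
  have eP2 : PO (rh (fun α => jj α * KK b α)) T (2 * T) L =
      ∑ i ∈ Finset.range I, PO (rh (pc b i)) T (2 * T) L + PO (rh (lst b I)) T (2 * T) L := by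
    have : rh (fun α => jj α * KK b α) = fun y => ∑ i ∈ Finset.range I, rh (pc b i) y +
        rh (lst b I) y := by
      funext y; exact rh_sum b I y
    rw [this, PO_add, PO_sum]
  have hmain : |PO (rh (fun α => jj α * KK b α)) T (2 * T) L -
      N * (b ^ 2 + ∫ α : ℝ, |α| * (jj α * KK b α))| ≤ (3 * C1 + 1) * N := by
    rw [eP2, main_sum b I]
    have e : ∑ i ∈ Finset.range I, PO (rh (pc b i)) T (2 * T) L + PO (rh (lst b I)) T (2 * T) L -
        N * (∑ i ∈ Finset.range I, (pc b i 0 + ∫ α : ℝ, |α| * pc b i α) +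
          (lst b I 0 + ∫ α : ℝ, |α| * lst b I α)) =
        ∑ i ∈ Finset.range I, (PO (rh (pc b i)) T (2 * T) L -
          N * (pc b i 0 + ∫ α : ℝ, |α| * pc b i α)) +
        (PO (rh (lst b I)) T (2 * T) L - N * (lst b I 0 + ∫ α : ℝ, |α| * lst b I α)) := by
      rw [Finset.sum_sub_distrib, ← Finset.mul_sum]
      ring
    rw [e]
    refine (abs_add_le _ _).trans ?_
    have h1 : |∑ i ∈ Finset.range I, (PO (rh (pc b i)) T (2 * T) L -
          N * (pc b i 0 + ∫ α : ℝ, |α| * pc b i α))| ≤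
        ∑ i ∈ Finset.range I, (C1 * (1 / 2) ^ i + ε) * N := by
      refine (Finset.abs_sum_le_sum_abs _ _).trans (Finset.sum_le_sum fun i hi => ?_)
      refine (g1 i hi).trans (le_of_eq ?_)
      have : C1 * (8 * 4 ^ i) * dl i ^ 3 = C1 * (1 / 2) ^ i := by
        unfold dl
        have e4 : (4 : ℝ) ^ i = 2 ^ i * 2 ^ i := by
          rw [← mul_pow]; norm_num
        have e2 : (0 : ℝ) < 2 ^ i := by positivity
        rw [e4, one_div_pow, one_div_pow]
        field_simp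
        ring
      rw [this]
    have h2 : ∑ i ∈ Finset.range I, (C1 * (1 / 2) ^ i + ε) * N ≤ (2 * C1 + I * ε) * N := by
      rw [← Finset.sum_mul, Finset.sum_add_distrib, ← Finset.mul_sum]
      apply mul_le_mul_of_nonneg_right _ hN0
      have h3 : ∑ i ∈ Finset.range I, ((1 : ℝ) / 2) ^ i ≤ 2 := by
        have := (summable_geometric_two).sum_le_tsum (Finset.range I) (fun i _ => by positivity)
        rw [tsum_geometric_two] at this
        exact this
      simp only [Finset.sum_const, Finset.card_range, nsmul_eq_mul]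
      nlinarith
    have h3 : C1 * b ^ 2 * dl I ^ 3 ≤ C1 := by
      have h4 : b ^ 2 * dl I ^ 3 ≤ 1 := by
        have e8 : dl I ^ 3 = 1 / (8 * 8 ^ I) := by
          unfold dl
          have e4 : (8 : ℝ) ^ I = 2 ^ I * 2 ^ I * 2 ^ I := by
            rw [← mul_pow, ← mul_pow]; norm_num
          rw [e4, one_div_pow]
          congr 1
          ring
        rw [e8, mul_one_div, div_le_one (by positivity)]
        have : (0 : ℝ) < 8 ^ I := by positivity
        linarith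
      calc C1 * b ^ 2 * dl I ^ 3 = C1 * (b ^ 2 * dl I ^ 3) := by ring
        _ ≤ C1 * 1 := by gcongr
        _ = C1 := mul_one _
    have h5 : (I : ℝ) * ε + ε = 1 := by
      rw [hε]
      field_simp
    have h6 : (C1 * b ^ 2 * dl I ^ 3 + ε) * N ≤ (C1 + ε) * N := by gcongr
    have h7 : (2 * C1 + I * ε) * N + (C1 + ε) * N = (3 * C1 + (I * ε + ε)) * N := by ring
    rw [h5] at h7
    linarith
  obtain ⟨t1, t2⟩ := trunc_main hb
  obtain ⟨m1, m2⟩ := abs_le.1 hmain
  set M := b ^ 2 + ∫ α : ℝ, |α| * (jj α * KK b α) with hM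
  have t3 : N * (PP b - M) ≤ N * 3 := by gcongr
  have t4 : 0 ≤ N * (PP b - M) := mul_nonneg hN0 t1
  rw [abs_le]
  constructor
  · nlinarith
  · nlinarith

end Pool.Agent.NH11.PV
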