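import Pool.Agent.NH11.PV.Kern

set_option autoImplicit false

/-! # A smooth cutoff and the dyadic decomposition of the Fejer kernel -/

namespace Pool.Agent.NH11.PV

open Filter Topology Set MeasureTheory

lemma sinc_contDiff {n : ℕ∞} : ContDiff ℝ n Real.sinc := by
  rw [contDiff_iff_contDiffAt]
  intro x
  rcases eq_or_ne x 0 with h | h
  · subst h
    have h1 : AnalyticAt ℝ Real.sin 0 := Real.analyticAt_sin
    obtain ⟨p, hp⟩ := h1
    have h2 := hp.has_fpower_series_dslope_fslope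
    rw [Real.sinc_eq_dslope]
    exact (AnalyticAt.contDiffAt ⟨_, h2⟩)
  · have h1 : ContDiffAt ℝ n (fun x : ℝ => Real.sin x / x) x :=
      Real.contDiff_sin.contDiffAt.div contDiffAt_id h
    refine h1.congr_of_eventuallyEq ?_
    filter_upwards [eventually_ne_nhds h] with y hy
    exact Real.sinc_of_ne_zero hy

lemma KK_contDiff (b : ℝ) {n : ℕ∞} : ContDiff ℝ n (KK b) := by
  unfold KK
  have h1 : ContDiff ℝ n (fun α : ℝ => Real.sinc (Real.pi * b * α)) :=
    sinc_contDiff.comp (contDiff_const.mul contDiff_id)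
  exact (contDiff_const.mul h1).pow 2

/-- the smooth cutoff -/
noncomputable def jj (α : ℝ) : ℝ := Real.smoothTransition (16 / 3 * (1 / 4 - α ^ 2))

lemma jj_contDiff {n : ℕ∞} : ContDiff ℝ n jj := by
  unfold jj
  exact Real.smoothTransition.contDiff.comp
    (contDiff_const.mul (contDiff_const.sub (contDiff_id.pow 2)))

lemma jj_nonneg (α : ℝ) : 0 ≤ jj α := Real.smoothTransition.nonneg _

lemma jj_le_one (α : ℝ) : jj α ≤ 1 := Real.smoothTransition.le_one _

lemma jj_one {α : ℝ} (h : |α| ≤ 1 / 4) : jj α = 1 := by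
  unfold jj
  apply Real.smoothTransition.one_of_one_le
  have : α ^ 2 ≤ (1 / 4) ^ 2 := by rw [← sq_abs]; gcongr
  linarith

lemma jj_zero {α : ℝ} (h : 1 / 2 ≤ |α|) : jj α = 0 := by
  unfold jj
  apply Real.smoothTransition.zero_of_nonpos
  have : (1 / 2) ^ 2 ≤ α ^ 2 := by rw [← sq_abs α]; gcongr
  linarith

/-- the dyadic pieces of the truncated kernel -/
noncomputable def pc (b : ℝ) (i : ℕ) (α : ℝ) : ℝ := (jj (2 ^ i * α) - jj (2 ^ (i + 1) * α)) * KK b α

/-- the last piece -/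
noncomputable def lst (b : ℝ) (i : ℕ) (α : ℝ) : ℝ := jj (2 ^ i * α) * KK b α

lemma pc_contDiff (b : ℝ) (i : ℕ) {n : ℕ∞} : ContDiff ℝ n (pc b i) := by
  unfold pc
  have h (k : ℕ) : ContDiff ℝ n (fun α : ℝ => jj (2 ^ k * α)) :=
    jj_contDiff.comp (contDiff_const.mul contDiff_id)
  exact ((h i).sub (h (i + 1))).mul (KK_contDiff b)

lemma lst_contDiff (b : ℝ) (i : ℕ) {n : ℕ∞} : ContDiff ℝ n (lst b i) := by
  unfold lst
  have h (k : ℕ) : ContDiff ℝ n (fun α : ℝ => jj (2 ^ k * α)) :=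
    jj_contDiff.comp (contDiff_const.mul contDiff_id)
  exact (h i).mul (KK_contDiff b)

lemma sum_pc (b : ℝ) (I : ℕ) (α : ℝ) :
    jj α * KK b α = ∑ i ∈ Finset.range I, pc b i α + lst b I α := by
  induction I with
  | zero => simp [lst]
  | succ I ih =>
    rw [ih, Finset.sum_range_succ]
    unfold lst pc
    ring

/-- the radius of the support -/
noncomputable def dl (i : ℕ) : ℝ := 1 / (2 * 2 ^ i)

lemma dl_pos (i : ℕ) : 0 < dl i := by unfold dl; positivity

lemma dl_le (i : ℕ) : dl i ≤ 1 / 2 := by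
  unfold dl
  rw [div_le_div_iff₀ (by positivity) (by norm_num)]
  have : (1 : ℝ) ≤ 2 ^ i := one_le_pow₀ (by norm_num)
  linarith

lemma far_scale {i : ℕ} {α : ℝ} (h : dl i < |α|) : 1 / 2 ≤ |2 ^ i * α| := by
  unfold dl at h
  rw [abs_mul, abs_of_pos (by positivity : (0 : ℝ) < 2 ^ i)]
  rw [div_lt_iff₀ (by positivity)] at h
  linarith

lemma pc_zero {b : ℝ} {i : ℕ} {α : ℝ} (h : dl i < |α|) : pc b i α = 0 := by
  unfold pc
  have h1 := far_scale h
  have h2 : 1 / 2 ≤ |2 ^ (i + 1) * α| := by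
    rw [pow_succ, mul_comm (2 ^ i) 2, mul_assoc, abs_mul]
    have : |(2 : ℝ)| = 2 := by norm_num
    rw [this]
    linarith
  rw [jj_zero h1, jj_zero h2]
  ring

lemma lst_zero {b : ℝ} {i : ℕ} {α : ℝ} (h : dl i < |α|) : lst b i α = 0 := by
  unfold lst
  rw [jj_zero (far_scale h)]
  ring

lemma lst_bound (b : ℝ) (i : ℕ) (α : ℝ) : |lst b i α| ≤ b ^ 2 := by
  unfold lst
  rw [abs_of_nonneg (mul_nonneg (jj_nonneg _) (KK_nonneg _ _))]
  calc jj (2 ^ i * α) * KK b α ≤ 1 * KK b α := by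
        gcongr
        · exact KK_nonneg _ _
        · exact jj_le_one _
    _ = KK b α := one_mul _
    _ ≤ b ^ 2 := KK_le_sq _ _

lemma pc_bound {b : ℝ} (hb : 0 < b) (i : ℕ) (α : ℝ) : |pc b i α| ≤ 8 * 4 ^ i := by
  have hpi := Real.pi_gt_three
  rcases le_or_gt |2 ^ (i + 1) * α| (1 / 4) with h | h
  · have h2 : |2 ^ i * α| ≤ 1 / 4 := by
      refine le_trans ?_ h
      rw [pow_succ, mul_comm (2 ^ i) 2, mul_assoc, abs_mul (2 : ℝ)]
      have : |(2 : ℝ)| = 2 := by norm_num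
      rw [this]
      have := abs_nonneg (2 ^ i * α)
      linarith
    unfold pc
    rw [jj_one h, jj_one h2]
    simp
  · have hα : α ≠ 0 := by
      rintro rfl
      norm_num at h
    have h3 : |jj (2 ^ i * α) - jj (2 ^ (i + 1) * α)| ≤ 1 := by
      have a1 := jj_nonneg (2 ^ i * α)
      have a2 := jj_le_one (2 ^ i * α)
      have a3 := jj_nonneg (2 ^ (i + 1) * α)
      have a4 := jj_le_one (2 ^ (i + 1) * α)
      rw [abs_le]; constructor <;> linarith
    have h4 := KK_le_inv hb α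
    have h5 : 1 ≤ 8 * 8 * 4 ^ i * α ^ 2 := by
      have : (1 / 4) ^ 2 ≤ |2 ^ (i + 1) * α| ^ 2 := by gcongr
      rw [sq_abs, mul_pow, ← pow_mul, mul_comm (i + 1) 2, pow_mul] at this
      norm_num at this
      rw [pow_succ] at this
      linarith
    have h6 : KK b α ≤ 8 * 4 ^ i := by
      have h0 := KK_nonneg b α
      have h7 : 1 / Real.pi ^ 2 ≤ 1 / 8 := by
        apply one_div_le_one_div_of_le (by norm_num)
        nlinarith
      have h8 : KK b α ≤ 8 * 8 * 4 ^ i * (KK b α * α ^ 2) := by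
        calc KK b α = 1 * KK b α := (one_mul _).symm
          _ ≤ 8 * 8 * 4 ^ i * α ^ 2 * KK b α := by gcongr
          _ = _ := by ring
      have h9 : 8 * 8 * 4 ^ i * (KK b α * α ^ 2) ≤ 8 * 8 * 4 ^ i * (1 / 8) := by
        gcongr
        exact h4.trans h7
      linarith
    unfold pc
    rw [abs_mul, abs_of_nonneg (KK_nonneg b α)]
    calc |jj (2 ^ i * α) - jj (2 ^ (i + 1) * α)| * KK b α ≤ 1 * KK b α := by
          gcongr
          exact KK_nonneg b α
      _ ≤ _ := by rw [one_mul]; exact h6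

lemma lip_of_cd {f : ℝ → ℝ} (hf : ContDiff ℝ 1 f) {δ : ℝ} (hs : ∀ α, δ < |α| → f α = 0) :
    ∃ K : ℝ, ∀ x y, |f x - f y| ≤ K * |x - y| := by
  have hc : HasCompactSupport f := by
    apply HasCompactSupport.intro (isCompact_Icc (a := -δ) (b := δ))
    intro x hx
    apply hs
    by_contra hcon
    push Not at hcon
    exact hx (abs_le.1 hcon)
  obtain ⟨K, hK⟩ := hf.lipschitzWith_of_hasCompactSupport hc (by norm_num)
  refine ⟨K, fun x y => ?_⟩
  have := hK.dist_le_mul x y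
  rwa [Real.dist_eq, Real.dist_eq] at this

end Pool.Agent.NH11.PV
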