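import Pool.Agent.NH11.PV.Fin
import Pool.Agent.NH11.PV.Third

set_option autoImplicit false

/-! # The averaged asymptotic formula and the simple zeros on the critical line -/

namespace Pool.Agent.NH11.PV

open Filter Topology Set MeasureTheory
open H370 (mult zset zeta_zeros_finite NN good_zeta)

/-- the normalising factor -/
noncomputable def XX (T : ℝ) : ℝ := T * Real.log T / (2 * Real.pi)

lemma XX_pos {T : ℝ} (hT : 1 < T) : 0 < XX T := by
  unfold XX
  have := Real.log_pos hT
  have := Real.pi_pos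
  positivity

/-- `N(T)` is asymptotic to the normalising factor -/
lemma N_lim : Tendsto (fun T => (NN riemannZeta 0 T : ℝ) / XX T) atTop (𝓝 1) := by
  rw [Metric.tendsto_atTop]
  intro ε hε
  obtain ⟨T0, hT0, h⟩ := Pool.Agent.W54.TCF.NT_asymp' (ε / 2) (by positivity)
  refine ⟨T0, fun T hT => ?_⟩
  have hX := XX_pos (show (1 : ℝ) < T by linarith)
  obtain ⟨h1, h2⟩ := h T hT
  have e : T / (2 * Real.pi) * Real.log T = XX T := by unfold XX; ring
  rw [e] at h1 h2
  rw [Real.dist_eq, abs_lt]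
  constructor
  · have : (1 - ε / 2) ≤ (NN riemannZeta 0 T : ℝ) / XX T := by rw [le_div_iff₀ hX]; exact h1
    linarith
  · have : (NN riemannZeta 0 T : ℝ) / XX T ≤ (1 + ε / 2) := by rw [div_le_iff₀ hX]; exact h2
    linarith

/-- the two measures of badness are small simultaneously -/
theorem bad_iff : Tendsto (fun T => (Nbad T : ℝ) / XX T) atTop (𝓝 0) ↔
    Tendsto (fun T => (Neq T : ℝ) / XX T) atTop (𝓝 1) := by
  have hN := N_lim
  constructor
  · intro h
    obtain ⟨C, T0, hC, hT0, hQ⟩ := QQ_bound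
    have hpi := Real.pi_pos
    -- the square of the difference
    have h1 : Tendsto (fun T => (2 * Real.pi * C) * ((Nbad T : ℝ) / XX T)) atTop (𝓝 0) := by
      simpa using h.const_mul (2 * Real.pi * C)
    have h2 : Tendsto (fun T => (((Neq T : ℝ) - NN riemannZeta 0 T) / XX T) ^ 2) atTop (𝓝 0) := by
      refine squeeze_zero' (Filter.Eventually.of_forall fun T => sq_nonneg _) ?_ h1
      filter_upwards [eventually_ge_atTop T0] with T hT
      have hX := XX_pos (show (1 : ℝ) < T by linarith)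
      have h3 := eq_le T
      have h4 := hQ T hT
      unfold QQ at h4
      have h5 : (0 : ℝ) ≤ Nbad T := Nat.cast_nonneg _
      have e : T * Real.log T = 2 * Real.pi * XX T := by unfold XX; field_simp
      rw [e] at h4
      rw [div_pow, div_le_iff₀ (by positivity)]
      calc ((Neq T : ℝ) - NN riemannZeta 0 T) ^ 2 ≤ Nbad T * (C * (2 * Real.pi * XX T)) :=
            h3.trans (mul_le_mul_of_nonneg_left h4 h5)
        _ = _ := by field_simp
    have h3 : Tendsto (fun T => ((Neq T : ℝ) - NN riemannZeta 0 T) / XX T) atTop (𝓝 0) := by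
      have h4 := (Real.continuous_sqrt.tendsto 0).comp h2
      rw [Real.sqrt_zero] at h4
      refine squeeze_zero_norm (fun T => ?_) h4
      rw [Function.comp_apply, Real.sqrt_sq_eq_abs, Real.norm_eq_abs]
    have h4 := h3.add hN
    rw [zero_add] at h4
    refine h4.congr fun T => ?_
    rw [← add_div]
    congr 1
    ring
  · intro h
    have h1 := h.sub hN
    rw [sub_self] at h1
    refine squeeze_zero' ?_ ?_ h1
    · filter_upwards [eventually_gt_atTop 1] with T hT
      have := XX_pos hT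
      positivity
    · filter_upwards [eventually_gt_atTop 1] with T hT
      have hX := XX_pos hT
      rw [← sub_div]
      exact div_le_div_of_nonneg_right (bad_le T) hX.le

/-- the equivalence -/
theorem equiv : (∀ ε : ℝ, 0 < ε → ∃ B₀ : ℝ, 0 < B₀ ∧ ∀ B : ℝ, B₀ ≤ B → ∃ T₀ : ℝ, ∀ T : ℝ, T₀ ≤ T →
      |(1 / B) * ∫ a in (0 : ℝ)..B, ((Nstar T a : ℝ) / XX T - GG a)| ≤ ε) ↔
    Tendsto (fun T => (Nbad T : ℝ) / XX T) atTop (𝓝 0) := by
  rw [bad_iff]
  obtain ⟨C, hC, hmain⟩ := disc
  constructor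
  · intro h
    rw [Metric.tendsto_atTop]
    intro ε hε
    obtain ⟨B0, hB0, h1⟩ := h (ε / 8) (by positivity)
    set B := max B0 (8 * C / ε) with hB
    have hB1 : 0 < B := lt_of_lt_of_le hB0 (le_max_left _ _)
    obtain ⟨T1, h2⟩ := h1 B (le_max_left _ _)
    obtain ⟨T2, hT2, h3⟩ := hmain B hB1.le
    refine ⟨max T1 T2, fun T hT => ?_⟩
    have g1 := h2 T ((le_max_left _ _).trans hT)
    have g2 := (h3 T ((le_max_right _ _).trans hT)).2
    rw [Real.dist_eq]
    change |(∫ a in (0 : ℝ)..B, ((Nstar T a : ℝ) / XX T - GG a)) + B / 2 * ((Neq T : ℝ) / XX T - 1)| ≤ C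
      at g2
    set I := ∫ a in (0 : ℝ)..B, ((Nstar T a : ℝ) / XX T - GG a) with hI
    rw [abs_mul, abs_of_pos (by positivity : 0 < 1 / B), one_div, inv_mul_le_iff₀ hB1] at g1
    have g3 : |B / 2 * ((Neq T : ℝ) / XX T - 1)| ≤ C + B * (ε / 8) := by
      have := abs_sub (I + B / 2 * ((Neq T : ℝ) / XX T - 1)) I
      rw [add_sub_cancel_left] at this
      linarith
    rw [abs_mul, abs_of_pos (by positivity : 0 < B / 2)] at g3
    have g4 : C ≤ B * (ε / 8) := by
      have : 8 * C / ε ≤ B := le_max_right _ _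
      rw [div_le_iff₀ hε] at this
      linarith
    have g5 : B / 2 * |(Neq T : ℝ) / XX T - 1| ≤ B / 2 * (ε / 2) := by linarith
    have g6 := le_of_mul_le_mul_left g5 (by positivity)
    linarith
  · intro h ε hε
    refine ⟨2 * C / ε, by positivity, fun B hB => ?_⟩
    have hB1 : 0 < B := lt_of_lt_of_le (by positivity) hB
    obtain ⟨T1, h2⟩ := (Metric.tendsto_atTop.1 h) ε hε
    obtain ⟨T2, hT2, h3⟩ := hmain B hB1.le
    refine ⟨max T1 T2, fun T hT => ?_⟩
    have g1 := h2 T ((le_max_left _ _).trans hT)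
    have g2 := (h3 T ((le_max_right _ _).trans hT)).2
    rw [Real.dist_eq] at g1
    change |(∫ a in (0 : ℝ)..B, ((Nstar T a : ℝ) / XX T - GG a)) + B / 2 * ((Neq T : ℝ) / XX T - 1)| ≤ C
      at g2
    set I := ∫ a in (0 : ℝ)..B, ((Nstar T a : ℝ) / XX T - GG a) with hI
    rw [abs_mul, abs_of_pos (by positivity : 0 < 1 / B), one_div, inv_mul_le_iff₀ hB1]
    have g3 : |I| ≤ C + B / 2 * |(Neq T : ℝ) / XX T - 1| := by
      have := abs_sub (I + B / 2 * ((Neq T : ℝ) / XX T - 1)) (B / 2 * ((Neq T : ℝ) / XX T - 1))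
      rw [add_sub_cancel_right] at this
      rw [abs_mul (B / 2), abs_of_pos (by positivity : 0 < B / 2)] at this
      linarith
    have g4 : C ≤ B * ε / 2 := by
      rw [div_le_iff₀ hε] at hB
      linarith
    have g5 : B / 2 * |(Neq T : ℝ) / XX T - 1| ≤ B / 2 * ε := by gcongr
    linarith

end Pool.Agent.NH11.PV
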