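import Pool.Agent.NH11.PV.Block
import Pool.Agent.NH11.PV.Count

set_option autoImplicit false

/-! # The primitive of the pair counting function -/

namespace Pool.Agent.NH11.PV

open Filter Topology Set MeasureTheory
open H370 (mult zset zeta_zeros_finite)

/-- the discrepancy from `0` -/
lemma disc : ∃ C : ℝ, 0 < C ∧ ∀ b : ℝ, 0 ≤ b → ∃ T0 : ℝ, 10 ≤ T0 ∧ ∀ T : ℝ, T0 ≤ T →
    IntervalIntegrable (fun a => (Nstar T a : ℝ)) volume 0 b ∧
    |(∫ a in (0 : ℝ)..b, ((Nstar T a : ℝ) / (T * Real.log T / (2 * Real.pi)) - GG a)) +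
      b / 2 * ((Neq T : ℝ) / (T * Real.log T / (2 * Real.pi)) - 1)| ≤ C := by
  obtain ⟨C, hC, hblk⟩ := blk
  obtain ⟨δ, hδ0, hδ⟩ := gap
  refine ⟨C + 3, by linarith, fun b hb => ?_⟩
  rcases hb.eq_or_lt with rfl | hb
  · refine ⟨10, le_rfl, fun T hT => ⟨by simp, ?_⟩⟩
    simp
    linarith
  obtain ⟨T0, hT0, h⟩ := full hC hblk hb
  have hpi := Real.pi_pos
  have ev : ∀ᶠ T : ℝ in atTop, 2 * Real.pi * b / Real.log T < δ := by
    have h1 : Tendsto (fun T : ℝ => 2 * Real.pi * b / Real.log T) atTop (𝓝 0) :=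
      Real.tendsto_log_atTop.const_div_atTop _
    exact h1.eventually (gt_mem_nhds hδ0)
  obtain ⟨T1, hT1⟩ := ev.exists_forall_of_atTop
  refine ⟨max T0 T1, hT0.trans (le_max_left _ _), fun T hT => ?_⟩
  have hTT0 : T0 ≤ T := (le_max_left _ _).trans hT
  obtain ⟨hi, hV⟩ := VV_eq hδ0 hδ hb.le (by linarith) (hT1 T ((le_max_right _ _).trans hT))
  refine ⟨hi, ?_⟩
  have h1 := h T hTT0
  have hL0 : 0 < Real.log T := Real.log_pos (by linarith)
  have hT' : 0 < T := by linarith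
  set X : ℝ := T * Real.log T / (2 * Real.pi) with hX
  have hX0 : 0 < X := by positivity
  rw [hV, PP_eq hb] at h1
  rw [intervalIntegral.integral_sub (hi.div_const X) (GG_cont.intervalIntegrable _ _),
    intervalIntegral.integral_div]
  set I := ∫ a in (0 : ℝ)..b, (Nstar T a : ℝ) with hI
  set J := ∫ a in (0 : ℝ)..b, GG a with hJ
  have e : I / X - J + b / 2 * ((Neq T : ℝ) / X - 1) =
      (b * (Neq T : ℝ) + 2 * I - (b + 2 * J) * X) / (2 * X) := by
    field_simp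
    ring
  rw [e, abs_div, abs_of_pos (by positivity : 0 < 2 * X), div_le_iff₀ (by positivity)]
  nlinarith

/-- **The primitive of the pair counting function has bounded discrepancy.** -/
theorem main : ∃ C : ℝ, 0 < C ∧ ∀ A B : ℝ, 0 ≤ A → A ≤ B → ∃ T0 : ℝ, 10 ≤ T0 ∧
    ∀ T : ℝ, T0 ≤ T →
    |(∫ a in A..B, ((Nstar T a : ℝ) / (T * Real.log T / (2 * Real.pi)) - GG a)) +
      (B - A) / 2 * ((Neq T : ℝ) / (T * Real.log T / (2 * Real.pi)) - 1)| ≤ C := by
  obtain ⟨C, hC, h⟩ := disc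
  refine ⟨2 * C, by positivity, fun A B hA hAB => ?_⟩
  obtain ⟨T1, hT1, h1⟩ := h A hA
  obtain ⟨T2, hT2, h2⟩ := h B (hA.trans hAB)
  refine ⟨max T1 T2, hT1.trans (le_max_left _ _), fun T hT => ?_⟩
  obtain ⟨i1, g1⟩ := h1 T ((le_max_left _ _).trans hT)
  obtain ⟨i2, g2⟩ := h2 T ((le_max_right _ _).trans hT)
  set X : ℝ := T * Real.log T / (2 * Real.pi) with hX
  have j1 : IntervalIntegrable (fun a => (Nstar T a : ℝ) / X - GG a) volume 0 A :=
    (i1.div_const X).sub (GG_cont.intervalIntegrable _ _)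
  have j2 : IntervalIntegrable (fun a => (Nstar T a : ℝ) / X - GG a) volume 0 B :=
    (i2.div_const X).sub (GG_cont.intervalIntegrable _ _)
  rw [← intervalIntegral.integral_interval_sub_left j2 j1]
  have e : (∫ a in (0 : ℝ)..B, ((Nstar T a : ℝ) / X - GG a)) -
      (∫ a in (0 : ℝ)..A, ((Nstar T a : ℝ) / X - GG a)) +
      (B - A) / 2 * ((Neq T : ℝ) / X - 1) =
      ((∫ a in (0 : ℝ)..B, ((Nstar T a : ℝ) / X - GG a)) + B / 2 * ((Neq T : ℝ) / X - 1)) -
      ((∫ a in (0 : ℝ)..A, ((Nstar T a : ℝ) / X - GG a)) + A / 2 * ((Neq T : ℝ) / X - 1)) := by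
    ring
  rw [e]
  refine (abs_sub _ _).trans ?_
  linarith

end Pool.Agent.NH11.PV
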