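import Mathlib

set_option autoImplicit false

/-! # Kernels: tents, Fejer kernels, and a dominating kernel -/

namespace Pool.Agent.NH11.PV

open Complex Filter Topology Set MeasureTheory
open scoped FourierTransform

/-- the cosine transform -/
noncomputable def ct (ψ : ℝ → ℝ) (x : ℝ) : ℝ := ∫ α : ℝ, ψ α * Real.cos (2 * Real.pi * α * x)

lemma int_cs {ψ : ℝ → ℝ} {μ : ℝ} (hψ : Continuous ψ) (hz : ∀ x, μ ≤ |x| → ψ x = 0) :
    Integrable ψ := by
  apply hψ.integrable_of_hasCompactSupport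
  apply HasCompactSupport.intro (isCompact_Icc (a := -μ) (b := μ))
  intro x hx
  apply hz
  by_contra h
  push Not at h
  obtain ⟨h3, h4⟩ := abs_lt.1 h
  exact hx ⟨h3.le, h4.le⟩

lemma ct_cs {ψ : ℝ → ℝ} {μ : ℝ} (hz : ∀ x, μ ≤ |x| → ψ x = 0) (x : ℝ) :
    ct ψ x = ∫ α in (-μ)..μ, ψ α * Real.cos (2 * Real.pi * α * x) := by
  unfold ct
  symm
  apply intervalIntegral.integral_eq_integral_of_support_subset
  intro α hα
  by_contra h
  apply hα
  have : μ ≤ |α| := by
    by_contra h2
    push Not at h2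
    obtain ⟨h3, h4⟩ := abs_lt.1 h2
    exact h ⟨by linarith, by linarith⟩
  show ψ α * Real.cos (2 * Real.pi * α * x) = 0
  rw [hz α this, zero_mul]

lemma ct_cont {ψ : ℝ → ℝ} {μ : ℝ} (hψ : Continuous ψ) (hz : ∀ x, μ ≤ |x| → ψ x = 0) :
    Continuous (ct ψ) := by
  have : ct ψ = fun x => ∫ α in (-μ)..μ, ψ α * Real.cos (2 * Real.pi * α * x) := by
    funext x; exact ct_cs hz x
  rw [this]
  exact intervalIntegral.continuous_parametric_intervalIntegral_of_continuous' (by
    show Continuous (Function.uncurry fun x α => ψ α * Real.cos (2 * Real.pi * α * x))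
    unfold Function.uncurry
    fun_prop) _ _

lemma ct_bound {ψ : ℝ → ℝ} (hi : Integrable ψ) (x : ℝ) :
    |ct ψ x| ≤ ∫ α, |ψ α| := by
  unfold ct
  rw [← Real.norm_eq_abs]
  refine (norm_integral_le_integral_norm _).trans ?_
  refine integral_mono_of_nonneg (Filter.Eventually.of_forall fun _ => norm_nonneg _)
    hi.norm (Filter.Eventually.of_forall fun α => ?_)
  show ‖ψ α * Real.cos (2 * Real.pi * α * x)‖ ≤ ‖ψ α‖
  rw [norm_mul]
  have := Real.abs_cos_le_one (2 * Real.pi * α * x)
  rw [Real.norm_eq_abs (Real.cos _)]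
  exact mul_le_of_le_one_right (norm_nonneg _) this

lemma ct_integrable {ψ : ℝ → ℝ} {μ : ℝ} (hψ : Continuous ψ) (hz : ∀ x, μ ≤ |x| → ψ x = 0)
    {C : ℝ} (hC : ∀ x, |ct ψ x| * x ^ 2 ≤ C) : Integrable (ct ψ) := by
  refine (integrable_inv_one_add_sq.const_mul ((∫ α, |ψ α|) + C)).mono'
    (ct_cont hψ hz).aestronglyMeasurable (Filter.Eventually.of_forall fun x => ?_)
  have h1 := ct_bound (int_cs hψ hz) x
  have h2 := hC x
  rw [Real.norm_eq_abs, ← div_eq_mul_inv, le_div_iff₀ (by positivity)]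
  linarith

/-- Fourier inversion for even functions of compact support -/
lemma ct_inv {ψ : ℝ → ℝ} {μ : ℝ} (hψ : Continuous ψ) (hz : ∀ x, μ ≤ |x| → ψ x = 0)
    (hev : ∀ x, ψ (-x) = ψ x)
    {C : ℝ} (hC : ∀ x, |ct ψ x| * x ^ 2 ≤ C) (β : ℝ) :
    ∫ x, ct ψ x * Real.cos (2 * Real.pi * x * β) = ψ β := by
  set f : ℝ → ℂ := fun α => (ψ α : ℂ) with hf
  have hfi : Integrable f := (int_cs hψ hz).ofReal
  have hfc : Continuous f := Complex.continuous_ofReal.comp hψ
  have hF : 𝓕 f = fun x => (ct ψ x : ℂ) := by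
    funext x
    rw [Real.fourier_real_eq_integral_exp_smul]
    set G : ℝ → ℂ := fun v => Complex.exp (↑(-2 * Real.pi * v * x) * Complex.I) • f v with hG
    have hGi : Integrable G := by
      refine hfi.norm.mono' (by
        apply Continuous.aestronglyMeasurable
        simp only [hG]
        fun_prop) (Filter.Eventually.of_forall fun v => ?_)
      simp only [hG]
      rw [norm_smul, Complex.norm_exp_ofReal_mul_I, one_mul]
    have h1 : ∫ v, G (-v) = ∫ v, G v := integral_neg_eq_self G volume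
    have h2 : ∫ v, G v = ∫ v, (G v + G (-v)) / 2 := by
      rw [integral_div, integral_add hGi hGi.comp_neg, h1]
      ring
    show ∫ v, G v = (ct ψ x : ℂ)
    have h3 : ((∫ α, ψ α * Real.cos (2 * Real.pi * α * x) : ℝ) : ℂ) =
        ∫ α, ((ψ α * Real.cos (2 * Real.pi * α * x) : ℝ) : ℂ) := integral_ofReal.symm
    unfold ct
    rw [h2, h3]
    refine integral_congr_ae (Filter.Eventually.of_forall fun v => ?_)
    simp only [hG, hf, smul_eq_mul]
    rw [hev]
    push_cast
    rw [Complex.cos]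
    have e1 : cexp (-2 * (Real.pi : ℂ) * v * x * I) = cexp (-(2 * (Real.pi : ℂ) * v * x) * I) := by
      congr 1; ring
    have e2 : cexp (-2 * (Real.pi : ℂ) * (-v) * x * I) = cexp ((2 * (Real.pi : ℂ) * v * x) * I) := by
      congr 1; ring
    rw [e1, e2]
    ring
  have hRi := ct_integrable hψ hz hC
  have hFi : Integrable (𝓕 f) := by rw [hF]; exact hRi.ofReal
  have hinv := hfi.fourierInv_fourier_eq hFi (v := β) hfc.continuousAt
  rw [hF, Real.fourierInv_eq'] at hinv
  have h3 := congrArg Complex.re hinv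
  have hint : Integrable fun v : ℝ => Complex.exp (↑(2 * Real.pi * inner ℝ v β) * Complex.I) •
      (ct ψ v : ℂ) := by
    refine hRi.norm.mono' (by
      apply Continuous.aestronglyMeasurable
      have := ct_cont hψ hz
      fun_prop) (Filter.Eventually.of_forall fun v => ?_)
    rw [norm_smul, Complex.norm_exp_ofReal_mul_I, one_mul, Complex.norm_real]
  have h4 := (Complex.reCLM.integral_comp_comm hint).symm
  simp only [Complex.reCLM_apply] at h4
  rw [h4] at h3
  simp only [hf, Complex.ofReal_re] at h3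
  rw [← h3]
  refine integral_congr_ae (Filter.Eventually.of_forall fun v => ?_)
  show ct ψ v * Real.cos (2 * Real.pi * v * β) =
    (cexp (↑(2 * Real.pi * inner ℝ v β) * I) • (ct ψ v : ℂ)).re
  rw [smul_eq_mul, mul_comm (cexp _), Complex.re_ofReal_mul, Complex.exp_ofReal_mul_I_re]
  have : (2 * Real.pi * inner ℝ v β : ℝ) = 2 * Real.pi * v * β := by
    simp [inner]
    ring
  rw [this]

/-! ### The tent and the Fejer kernel -/

/-- the tent -/
noncomputable def tent (b x : ℝ) : ℝ := max 0 (b - |x|)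

/-- the Fejer kernel -/
noncomputable def KK (b α : ℝ) : ℝ := (b * Real.sinc (Real.pi * b * α)) ^ 2

lemma tent_nonneg (b x : ℝ) : 0 ≤ tent b x := le_max_left _ _

lemma tent_cont (b : ℝ) : Continuous (tent b) := by unfold tent; fun_prop

lemma tent_zero {b x : ℝ} (h : b ≤ |x|) : tent b x = 0 := by
  unfold tent; rw [max_eq_left]; linarith

lemma tent_even (b x : ℝ) : tent b (-x) = tent b x := by unfold tent; rw [abs_neg]

lemma KK_nonneg (b α : ℝ) : 0 ≤ KK b α := sq_nonneg _

lemma KK_cont (b : ℝ) : Continuous (KK b) := by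
  unfold KK
  have := Real.continuous_sinc
  fun_prop

lemma KK_le_sq (b : ℝ) (α : ℝ) : KK b α ≤ b ^ 2 := by
  unfold KK
  rw [mul_pow]
  have h1 := Real.abs_sinc_le_one (Real.pi * b * α)
  have h2 : Real.sinc (Real.pi * b * α) ^ 2 ≤ 1 := by
    rw [← sq_abs]; exact pow_le_one₀ (abs_nonneg _) h1
  nlinarith [sq_nonneg b]

lemma KK_eq {b α : ℝ} (hb : 0 < b) (hα : α ≠ 0) :
    KK b α = (Real.sin (Real.pi * b * α) / (Real.pi * α)) ^ 2 := by
  unfold KK
  have hpi := Real.pi_pos
  rw [Real.sinc_of_ne_zero (by positivity)]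
  congr 1
  field_simp

lemma KK_le_inv {b : ℝ} (hb : 0 < b) (α : ℝ) : KK b α * α ^ 2 ≤ 1 / Real.pi ^ 2 := by
  have hpi := Real.pi_pos
  rcases eq_or_ne α 0 with h | h
  · rw [h]; simp; positivity
  · rw [KK_eq hb h, div_pow, mul_pow, div_mul_eq_mul_div, div_le_div_iff₀ (by positivity) (by positivity)]
    have := Real.sin_sq_le_one (Real.pi * b * α)
    have h2 : 0 < α ^ 2 := by positivity
    have h3 : 0 < Real.pi ^ 2 := by positivity
    nlinarith [mul_pos h2 h3]

lemma ct_tent {b : ℝ} (hb : 0 < b) (α : ℝ) : ct (tent b) α = KK b α := by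
  have hpi := Real.pi_pos
  rw [ct_cs (μ := b) (fun x hx => tent_zero hx)]
  have h0 : ∀ x ∈ Set.uIcc (-b) b, tent b x * Real.cos (2 * Real.pi * x * α) =
      (b - |x|) * Real.cos (2 * Real.pi * x * α) := by
    intro x hx
    rw [Set.uIcc_of_le (by linarith)] at hx
    unfold tent
    rw [max_eq_right]
    have := abs_le.2 ⟨hx.1, hx.2⟩
    linarith
  rw [intervalIntegral.integral_congr h0]
  have hspl : ∫ x in (-b)..b, (b - |x|) * Real.cos (2 * Real.pi * x * α) =
      2 * ∫ x in (0 : ℝ)..b, (b - x) * Real.cos (2 * Real.pi * x * α) := by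
    have hc : Continuous fun x : ℝ => (b - |x|) * Real.cos (2 * Real.pi * x * α) := by fun_prop
    rw [← intervalIntegral.integral_add_adjacent_intervals (b := 0) (hc.intervalIntegrable _ _)
      (hc.intervalIntegrable _ _)]
    have e1 : ∫ x in (-b)..0, (b - |x|) * Real.cos (2 * Real.pi * x * α) =
        ∫ x in (0 : ℝ)..b, (b - |x|) * Real.cos (2 * Real.pi * x * α) := by
      have := intervalIntegral.integral_comp_neg (a := 0) (b := b)
        (fun x : ℝ => (b - |x|) * Real.cos (2 * Real.pi * x * α))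
      rw [neg_zero] at this
      rw [← this]
      refine intervalIntegral.integral_congr fun x _ => ?_
      show (b - |-x|) * Real.cos (2 * Real.pi * (-x) * α) = _
      rw [abs_neg, show 2 * Real.pi * (-x) * α = -(2 * Real.pi * x * α) by ring, Real.cos_neg]
    have e2 : ∫ x in (0 : ℝ)..b, (b - |x|) * Real.cos (2 * Real.pi * x * α) =
        ∫ x in (0 : ℝ)..b, (b - x) * Real.cos (2 * Real.pi * x * α) := by
      refine intervalIntegral.integral_congr fun x hx => ?_
      rw [Set.uIcc_of_le hb.le] at hx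
      show (b - |x|) * _ = (b - x) * _
      rw [abs_of_nonneg hx.1]
    rw [e1, e2]
    ring
  rw [hspl]
  rcases eq_or_ne α 0 with h | h
  · subst h
    simp only [mul_zero, Real.cos_zero, mul_one]
    unfold KK
    rw [mul_zero, Real.sinc_zero, mul_one]
    have h2 : ∀ x ∈ Set.uIcc (0 : ℝ) b, HasDerivAt (fun x : ℝ => b * x - x ^ 2 / 2) (b - x) x := by
      intro x _
      have := ((hasDerivAt_id x).const_mul b).sub (((hasDerivAt_id x).pow 2).div_const 2)
      refine this.congr_deriv ?_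
      simp
    rw [intervalIntegral.integral_eq_sub_of_hasDerivAt h2
      ((by fun_prop : Continuous fun x : ℝ => b - x).intervalIntegrable _ _)]
    ring
  · rw [KK_eq hb h]
    have hk : 2 * Real.pi * α ≠ 0 := by positivity
    set k := 2 * Real.pi * α with hkdef
    have h2 : ∀ x ∈ Set.uIcc (0 : ℝ) b, HasDerivAt (fun x : ℝ => (b - x) * Real.sin (k * x) / k -
        Real.cos (k * x) / k ^ 2) ((b - x) * Real.cos (2 * Real.pi * x * α)) x := by
      intro x _
      have h3 : HasDerivAt (fun x : ℝ => k * x) k x := by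
        simpa using (hasDerivAt_id x).const_mul k
      have h4 := h3.sin
      have h5 := h3.cos
      have h6 : HasDerivAt (fun x : ℝ => b - x) (-1) x := by
        simpa using (hasDerivAt_id x).const_sub b
      have h7 := ((h6.mul h4).div_const k).sub (h5.div_const (k ^ 2))
      refine h7.congr_deriv ?_
      rw [show 2 * Real.pi * x * α = k * x by rw [hkdef]; ring]
      field_simp
      ring
    rw [intervalIntegral.integral_eq_sub_of_hasDerivAt h2
      ((by fun_prop : Continuous fun x : ℝ =>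
        (b - x) * Real.cos (2 * Real.pi * x * α)).intervalIntegrable _ _)]
    have h8 : Real.cos (k * b) = 1 - 2 * Real.sin (Real.pi * b * α) ^ 2 := by
      have : k * b = 2 * (Real.pi * b * α) := by rw [hkdef]; ring
      rw [this, Real.cos_two_mul, Real.cos_sq']
      ring
    rw [h8]
    simp only [mul_zero, Real.sin_zero, Real.cos_zero, sub_self, zero_mul, zero_div, sub_zero]
    rw [hkdef]
    field_simp
    ring

lemma KK_dec {b : ℝ} (hb : 0 < b) (x : ℝ) : |ct (tent b) x| * x ^ 2 ≤ 1 / Real.pi ^ 2 := by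
  rw [ct_tent hb, abs_of_nonneg (KK_nonneg _ _)]
  exact KK_le_inv hb x

lemma KK_int {b : ℝ} (hb : 0 < b) : Integrable (KK b) := by
  have := ct_integrable (tent_cont b) (fun x hx => tent_zero hx) (KK_dec hb)
  have e : ct (tent b) = KK b := by funext x; exact ct_tent hb x
  rwa [e] at this

/-- the inversion formula for the tent -/
theorem KK_inv {b : ℝ} (hb : 0 < b) (x : ℝ) :
    ∫ α, KK b α * Real.cos (2 * Real.pi * α * x) = tent b x := by
  have h := ct_inv (tent_cont b) (fun x hx => tent_zero hx) (tent_even b) (KK_dec hb) x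
  have e : ct (tent b) = KK b := by funext x; exact ct_tent hb x
  rwa [e] at h

/-! ### The dominating kernel -/

/-- the function `(1 - |x|)_+ ^ 2` -/
noncomputable def sq1 (x : ℝ) : ℝ := (tent 1 x) ^ 2

lemma sq1_nonneg (x : ℝ) : 0 ≤ sq1 x := sq_nonneg _

lemma sq1_cont : Continuous sq1 := (tent_cont 1).pow 2

lemma sq1_zero {x : ℝ} (h : 1 ≤ |x|) : sq1 x = 0 := by unfold sq1; rw [tent_zero h]; simp

lemma sq1_even (x : ℝ) : sq1 (-x) = sq1 x := by unfold sq1; rw [tent_even]

lemma sq1_le (x : ℝ) : sq1 x ≤ if |x| ≤ 1 then 1 else 0 := by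
  split_ifs with h
  · unfold sq1 tent
    have h1 : max 0 (1 - |x|) ≤ 1 := max_le zero_le_one (by linarith [abs_nonneg x])
    exact pow_le_one₀ (le_max_left _ _) h1
  · push Not at h
    rw [sq1_zero h.le]

lemma ct_sq1 {α : ℝ} (hα : α ≠ 0) : ct sq1 α =
    4 / (2 * Real.pi * α) ^ 2 * (1 - Real.sin (2 * Real.pi * α) / (2 * Real.pi * α)) := by
  have hpi := Real.pi_pos
  rw [ct_cs (μ := 1) (fun x hx => sq1_zero hx)]
  have h0 : ∀ x ∈ Set.uIcc (-1 : ℝ) 1, sq1 x * Real.cos (2 * Real.pi * x * α) =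
      (1 - |x|) ^ 2 * Real.cos (2 * Real.pi * x * α) := by
    intro x hx
    rw [Set.uIcc_of_le (by norm_num)] at hx
    unfold sq1 tent
    rw [max_eq_right]
    have := abs_le.2 ⟨hx.1, hx.2⟩
    linarith
  rw [intervalIntegral.integral_congr h0]
  have hspl : ∫ x in (-1 : ℝ)..1, (1 - |x|) ^ 2 * Real.cos (2 * Real.pi * x * α) =
      2 * ∫ x in (0 : ℝ)..1, (1 - x) ^ 2 * Real.cos (2 * Real.pi * x * α) := by
    have hc : Continuous fun x : ℝ => (1 - |x|) ^ 2 * Real.cos (2 * Real.pi * x * α) := by fun_prop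
    rw [← intervalIntegral.integral_add_adjacent_intervals (b := 0) (hc.intervalIntegrable _ _)
      (hc.intervalIntegrable _ _)]
    have e1 : ∫ x in (-1 : ℝ)..0, (1 - |x|) ^ 2 * Real.cos (2 * Real.pi * x * α) =
        ∫ x in (0 : ℝ)..1, (1 - |x|) ^ 2 * Real.cos (2 * Real.pi * x * α) := by
      have := intervalIntegral.integral_comp_neg (a := 0) (b := 1)
        (fun x : ℝ => (1 - |x|) ^ 2 * Real.cos (2 * Real.pi * x * α))
      rw [neg_zero] at this
      rw [← this]
      refine intervalIntegral.integral_congr fun x _ => ?_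
      show (1 - |-x|) ^ 2 * Real.cos (2 * Real.pi * (-x) * α) = _
      rw [abs_neg, show 2 * Real.pi * (-x) * α = -(2 * Real.pi * x * α) by ring, Real.cos_neg]
    have e2 : ∫ x in (0 : ℝ)..1, (1 - |x|) ^ 2 * Real.cos (2 * Real.pi * x * α) =
        ∫ x in (0 : ℝ)..1, (1 - x) ^ 2 * Real.cos (2 * Real.pi * x * α) := by
      refine intervalIntegral.integral_congr fun x hx => ?_
      rw [Set.uIcc_of_le zero_le_one] at hx
      show (1 - |x|) ^ 2 * _ = (1 - x) ^ 2 * _
      rw [abs_of_nonneg hx.1]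
    rw [e1, e2]
    ring
  rw [hspl]
  have hk : 2 * Real.pi * α ≠ 0 := by positivity
  set k := 2 * Real.pi * α with hkdef
  have h2 : ∀ x ∈ Set.uIcc (0 : ℝ) 1, HasDerivAt (fun x : ℝ => (1 - x) ^ 2 * Real.sin (k * x) / k -
      2 * (1 - x) * Real.cos (k * x) / k ^ 2 - 2 * Real.sin (k * x) / k ^ 3)
      ((1 - x) ^ 2 * Real.cos (2 * Real.pi * x * α)) x := by
    intro x _
    have h3 : HasDerivAt (fun x : ℝ => k * x) k x := by
      simpa using (hasDerivAt_id x).const_mul k
    have h4 := h3.sin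
    have h5 := h3.cos
    have h6 : HasDerivAt (fun x : ℝ => 1 - x) (-1) x := by
      simpa using (hasDerivAt_id x).const_sub 1
    have h7 := ((((h6.pow 2).mul h4).div_const k).sub
      (((h6.const_mul 2).mul h5).div_const (k ^ 2))).sub ((h4.const_mul 2).div_const (k ^ 3))
    refine h7.congr_deriv ?_
    rw [show 2 * Real.pi * x * α = k * x by rw [hkdef]; ring]
    simp only [Pi.pow_apply]
    field_simp
    ring
  rw [intervalIntegral.integral_eq_sub_of_hasDerivAt h2
    ((by fun_prop : Continuous fun x : ℝ =>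
      (1 - x) ^ 2 * Real.cos (2 * Real.pi * x * α)).intervalIntegrable _ _)]
  simp only [mul_zero, Real.sin_zero, Real.cos_zero, sub_self, zero_mul, zero_div, sub_zero, mul_one]
  field_simp
  ring

lemma one_sub_sin {k : ℝ} (hk : Real.pi / 2 ≤ |k|) : 1 / 3 ≤ 1 - Real.sin k / k := by
  have hpi := Real.pi_gt_three
  have hk0 : 0 < |k| := by linarith
  have h1 : Real.sin k / k ≤ 1 / |k| := by
    refine (le_abs_self _).trans ?_
    rw [abs_div]
    gcongr
    exact Real.abs_sin_le_one k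
  have h2 : 1 / |k| ≤ 2 / 3 := by
    rw [div_le_div_iff₀ hk0 (by norm_num)]
    linarith
  linarith

lemma ct_sq1_nonneg (α : ℝ) : 0 ≤ ct sq1 α := by
  rcases eq_or_ne α 0 with h | h
  · subst h
    unfold ct
    apply integral_nonneg
    intro x
    simp only [mul_zero, Real.cos_zero, mul_one]
    exact sq1_nonneg x
  · rw [ct_sq1 h]
    have hpi := Real.pi_pos
    have hk : 2 * Real.pi * α ≠ 0 := by positivity
    apply mul_nonneg (by positivity)
    have : Real.sin (2 * Real.pi * α) / (2 * Real.pi * α) ≤ 1 := by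
      refine (le_abs_self _).trans ?_
      rw [abs_div]
      exact div_le_one_of_le₀ Real.abs_sin_le_abs (abs_nonneg _)
    linarith

lemma KK_le_dom {b α : ℝ} (hb : 0 < b) (hα : 1 / 4 ≤ |α|) : KK b α ≤ 3 * ct sq1 α := by
  have hpi := Real.pi_pos
  have hα0 : α ≠ 0 := by
    intro h; rw [h] at hα; norm_num at hα
  rw [ct_sq1 hα0]
  have h1 : 1 / 3 ≤ 1 - Real.sin (2 * Real.pi * α) / (2 * Real.pi * α) := by
    apply one_sub_sin
    rw [abs_mul, abs_of_pos (by positivity : 0 < 2 * Real.pi)]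
    nlinarith
  have h2 := KK_le_inv hb α
  have h3 : 0 < α ^ 2 := by positivity
  have h4 : KK b α ≤ 4 / (2 * Real.pi * α) ^ 2 := by
    rw [le_div_iff₀ (by positivity)]
    have : KK b α * (2 * Real.pi * α) ^ 2 = 4 * Real.pi ^ 2 * (KK b α * α ^ 2) := by ring
    rw [this]
    calc 4 * Real.pi ^ 2 * (KK b α * α ^ 2) ≤ 4 * Real.pi ^ 2 * (1 / Real.pi ^ 2) := by gcongr
      _ = 4 := by field_simp
  have h5 : 0 < 4 / (2 * Real.pi * α) ^ 2 := by positivity
  nlinarith

lemma sq1_dec (x : ℝ) : |ct sq1 x| * x ^ 2 ≤ 1 := by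
  rcases eq_or_ne x 0 with h | h
  · subst h; simp
  · rw [abs_of_nonneg (ct_sq1_nonneg x), ct_sq1 h]
    have hpi := Real.pi_gt_three
    have h1 : 1 - Real.sin (2 * Real.pi * x) / (2 * Real.pi * x) ≤ 2 := by
      have : -(Real.sin (2 * Real.pi * x) / (2 * Real.pi * x)) ≤ 1 := by
        refine (neg_le_abs _).trans ?_
        rw [abs_div]
        exact div_le_one_of_le₀ Real.abs_sin_le_abs (abs_nonneg _)
      linarith
    calc 4 / (2 * Real.pi * x) ^ 2 * (1 - Real.sin (2 * Real.pi * x) / (2 * Real.pi * x)) * x ^ 2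
        ≤ 4 / (2 * Real.pi * x) ^ 2 * 2 * x ^ 2 := by gcongr
      _ = 2 / Real.pi ^ 2 := by field_simp; ring
      _ ≤ 1 := by
        rw [div_le_one (by positivity)]
        nlinarith

lemma sq1_int : Integrable (ct sq1) :=
  ct_integrable sq1_cont (fun _ hx => sq1_zero hx) sq1_dec

theorem sq1_inv (x : ℝ) : ∫ α, ct sq1 α * Real.cos (2 * Real.pi * α * x) = sq1 x :=
  ct_inv sq1_cont (fun _ hx => sq1_zero hx) sq1_even sq1_dec x

/-! ### Finite sums -/

/-- the quadratic form at the frequency `α` -/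
noncomputable def Phi {ι : Type*} (S : Finset ι) (m x : ι → ℝ) (α : ℝ) : ℝ :=
  ∑ i ∈ S, ∑ j ∈ S, m i * m j * Real.cos (2 * Real.pi * α * (x i - x j))

lemma Phi_nonneg {ι : Type*} (S : Finset ι) (m x : ι → ℝ) (α : ℝ) : 0 ≤ Phi S m x α := by
  have : Phi S m x α = (∑ i ∈ S, m i * Real.cos (2 * Real.pi * α * x i)) ^ 2 +
      (∑ i ∈ S, m i * Real.sin (2 * Real.pi * α * x i)) ^ 2 := by
    unfold Phi
    rw [sq, sq, Finset.sum_mul_sum, Finset.sum_mul_sum, ← Finset.sum_add_distrib]
    refine Finset.sum_congr rfl fun i _ => ?_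
    rw [← Finset.sum_add_distrib]
    refine Finset.sum_congr rfl fun j _ => ?_
    rw [mul_sub, Real.cos_sub]
    ring
  rw [this]
  positivity

lemma int_Phi {ι : Type*} (S : Finset ι) (m x : ι → ℝ) {r : ℝ → ℝ} (hr : Integrable r) :
    Integrable (fun α => r α * Phi S m x α) ∧
    ∫ α, r α * Phi S m x α = ∑ i ∈ S, ∑ j ∈ S, m i * m j * ct r (x i - x j) := by
  have h1 : ∀ y : ℝ, Integrable (fun α => r α * Real.cos (2 * Real.pi * α * y)) := by
    intro y
    refine hr.norm.mono' (hr.aestronglyMeasurable.mul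
      (by fun_prop : Continuous fun α : ℝ => Real.cos (2 * Real.pi * α * y)).aestronglyMeasurable)
      (Filter.Eventually.of_forall fun α => ?_)
    rw [norm_mul]
    have := Real.abs_cos_le_one (2 * Real.pi * α * y)
    rw [Real.norm_eq_abs (Real.cos _)]
    exact mul_le_of_le_one_right (norm_nonneg _) this
  have h2 : (fun α => r α * Phi S m x α) = fun α => ∑ i ∈ S, ∑ j ∈ S,
      m i * m j * (r α * Real.cos (2 * Real.pi * α * (x i - x j))) := by
    funext α
    unfold Phi
    rw [Finset.mul_sum]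
    refine Finset.sum_congr rfl fun i _ => ?_
    rw [Finset.mul_sum]
    refine Finset.sum_congr rfl fun j _ => ?_
    ring
  rw [h2]
  constructor
  · exact integrable_finset_sum _ fun i _ => integrable_finset_sum _ fun j _ =>
      (h1 _).const_mul _
  · rw [integral_finset_sum _ fun i _ => integrable_finset_sum _ fun j _ => (h1 _).const_mul _]
    refine Finset.sum_congr rfl fun i _ => ?_
    rw [integral_finset_sum _ fun j _ => (h1 _).const_mul _]
    refine Finset.sum_congr rfl fun j _ => ?_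
    rw [integral_const_mul]
    rfl

lemma ct_KK {b : ℝ} (hb : 0 < b) (x : ℝ) : ct (KK b) x = tent b x := KK_inv hb x

lemma ct_ctsq1 (x : ℝ) : ct (ct sq1) x = sq1 x := sq1_inv x

/-- The comparison of the pair sum of the tent with that of a truncation. -/
theorem sandwich {ι : Type*} (S : Finset ι) (m x : ι → ℝ) (hm : ∀ i ∈ S, 0 ≤ m i) {b : ℝ}
    (hb : 0 < b) {j : ℝ → ℝ} (hj : Continuous j) (hj0 : ∀ α, 0 ≤ j α) (hj1 : ∀ α, j α ≤ 1)
    (hj2 : ∀ α, |α| ≤ 1 / 4 → j α = 1) :
    0 ≤ ∑ i ∈ S, ∑ k ∈ S, m i * m k * tent b (x i - x k) -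
        ∑ i ∈ S, ∑ k ∈ S, m i * m k * ct (fun α => j α * KK b α) (x i - x k) ∧
    ∑ i ∈ S, ∑ k ∈ S, m i * m k * tent b (x i - x k) -
        ∑ i ∈ S, ∑ k ∈ S, m i * m k * ct (fun α => j α * KK b α) (x i - x k) ≤
      3 * ∑ i ∈ S, ∑ k ∈ S, m i * m k * (if |x i - x k| ≤ 1 then 1 else 0) := by
  have hjK : Integrable (fun α => j α * KK b α) := by
    refine (KK_int hb).mono' (hj.mul (KK_cont b)).aestronglyMeasurable
      (Filter.Eventually.of_forall fun α => ?_)
    rw [Real.norm_eq_abs, abs_of_nonneg (mul_nonneg (hj0 α) (KK_nonneg b α))]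
    exact mul_le_of_le_one_left (KK_nonneg b α) (hj1 α)
  obtain ⟨i1, e1⟩ := int_Phi S m x (KK_int hb)
  obtain ⟨i2, e2⟩ := int_Phi S m x hjK
  obtain ⟨i3, e3⟩ := int_Phi S m x sq1_int
  simp_rw [ct_KK hb] at e1
  simp_rw [ct_ctsq1] at e3
  rw [← e1, ← e2, ← integral_sub i1 i2]
  constructor
  · apply integral_nonneg
    intro α
    show 0 ≤ KK b α * Phi S m x α - j α * KK b α * Phi S m x α
    have h1 := KK_nonneg b α
    have h2 := Phi_nonneg S m x α
    have h3 := hj1 α
    have : KK b α * Phi S m x α - j α * KK b α * Phi S m x α =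
      (1 - j α) * (KK b α * Phi S m x α) := by ring
    rw [this]
    exact mul_nonneg (by linarith) (mul_nonneg h1 h2)
  · have h4 : ∑ i ∈ S, ∑ k ∈ S, m i * m k * sq1 (x i - x k) ≤
        ∑ i ∈ S, ∑ k ∈ S, m i * m k * (if |x i - x k| ≤ 1 then 1 else 0) := by
      refine Finset.sum_le_sum fun i hi => Finset.sum_le_sum fun k hk => ?_
      exact mul_le_mul_of_nonneg_left (sq1_le _) (mul_nonneg (hm i hi) (hm k hk))
    refine le_trans ?_ (mul_le_mul_of_nonneg_left h4 (by norm_num))
    rw [← e3, ← integral_const_mul]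
    refine integral_mono (i1.sub i2) (i3.const_mul 3) fun α => ?_
    show KK b α * Phi S m x α - j α * KK b α * Phi S m x α ≤ 3 * (ct sq1 α * Phi S m x α)
    have h1 := KK_nonneg b α
    have h2 := Phi_nonneg S m x α
    have h5 := ct_sq1_nonneg α
    have e : KK b α * Phi S m x α - j α * KK b α * Phi S m x α =
      ((1 - j α) * KK b α) * Phi S m x α := by ring
    rw [e, ← mul_assoc]
    apply mul_le_mul_of_nonneg_right _ h2
    rcases le_or_gt |α| (1 / 4) with h6 | h6
    · rw [hj2 α h6]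
      have : (0 : ℝ) ≤ 3 * ct sq1 α := by positivity
      simpa using this
    · refine le_trans ?_ (KK_le_dom hb h6.le)
      exact mul_le_of_le_one_left h1 (by linarith [hj0 α])

end Pool.Agent.NH11.PV
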